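import Mathlib

open MeasureTheory Filter Topology Set
open scoped ENNReal BoundedContinuousFunction

namespace Pool.Agent.R221.PL

section generic

variable {E : Type*} [NormedAddCommGroup E] [MeasurableSpace E] [BorelSpace E]

/-- Shifted discrete energy (sum over ordered pairs of distinct indices). -/
noncomputable def D (w : E → ℝ≥0∞) {N : ℕ} (X : Fin N → E) : ℝ≥0∞ :=
  ∑ i, ∑ j, if i = j then 0 else w (X i - X j)

/-- Shifted continuum energy. -/
noncomputable def C (w : E → ℝ≥0∞) (μ : Measure E) : ℝ≥0∞ :=
  ∫⁻ x, ∫⁻ y, w (x - y) ∂μ ∂μ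

/-- Potential seen at `x` from all the particles except the `i`-th. -/
noncomputable def V (w : E → ℝ≥0∞) {N : ℕ} (X : Fin N → E) (i : Fin N) (x : E) : ℝ≥0∞ :=
  ∑ j, if i = j then 0 else w (x - X j)

lemma D_eq_sum_V (w : E → ℝ≥0∞) {N : ℕ} (X : Fin N → E) :
    D w X = ∑ i, V w X i (X i) := rfl

lemma pair_lintegral [SecondCountableTopology E] {w : E → ℝ≥0∞} (hw : Measurable w) {N : ℕ}
    (ρ : Measure E) [IsProbabilityMeasure ρ] {i j : Fin N} (hij : i ≠ j) :
    ∫⁻ X : Fin N → E, w (X i - X j) ∂(Measure.pi fun _ => ρ) = C w ρ := by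
  have hind := ProbabilityTheory.iIndepFun_pi (ι := Fin N) (Ω := fun _ => E) (μ := fun _ => ρ)
    (X := fun _ x => x) (fun _ => aemeasurable_id)
  have h2 := hind.indepFun hij
  have h3 := h2.map_prod_eq_prod_map_map (measurable_pi_apply i).aemeasurable
    (measurable_pi_apply j).aemeasurable
  have e1 : (Measure.pi fun _ : Fin N => ρ).map (fun X : Fin N → E => X i) = ρ :=
    (measurePreserving_eval (fun _ : Fin N => ρ) i).map_eq
  have e2 : (Measure.pi fun _ : Fin N => ρ).map (fun X : Fin N → E => X j) = ρ :=
    (measurePreserving_eval (fun _ : Fin N => ρ) j).map_eq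
  rw [e1, e2] at h3
  have hm : Measurable (fun p : E × E => w (p.1 - p.2)) :=
    hw.comp (measurable_fst.sub measurable_snd)
  have h4 : ∫⁻ X : Fin N → E, w (X i - X j) ∂(Measure.pi fun _ => ρ)
      = ∫⁻ p : E × E, w (p.1 - p.2) ∂((Measure.pi fun _ : Fin N => ρ).map
          (fun X : Fin N → E => (X i, X j))) := by
    rw [lintegral_map hm ((measurable_pi_apply i).prodMk (measurable_pi_apply j))]
  rw [h4, h3, lintegral_prod _ hm.aemeasurable]
  rfl

lemma exists_D_le [SecondCountableTopology E] {w : E → ℝ≥0∞} (hw : Measurable w) (N : ℕ)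
    (ρ : Measure E) [IsProbabilityMeasure ρ] :
    ∃ X : Fin N → E, D w X ≤ ((N * (N - 1) : ℕ) : ℝ≥0∞) * C w ρ := by
  have hm : Measurable (fun X : Fin N → E => D w X) := by
    unfold D
    refine Finset.measurable_sum _ fun i _ => Finset.measurable_sum _ fun j _ => ?_
    split_ifs
    · exact measurable_const
    · exact hw.comp ((measurable_pi_apply i).sub (measurable_pi_apply j))
  obtain ⟨X, hX⟩ := exists_le_lintegral (μ := Measure.pi fun _ : Fin N => ρ) hm.aemeasurable
  refine ⟨X, hX.trans (le_of_eq ?_)⟩
  unfold D
  rw [lintegral_finsetSum]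
  · have h1 : ∀ i : Fin N, ∫⁻ X : Fin N → E, (∑ j, if i = j then 0 else w (X i - X j))
        ∂(Measure.pi fun _ => ρ) = ((N - 1 : ℕ) : ℝ≥0∞) * C w ρ := by
      intro i
      rw [lintegral_finsetSum]
      · have h2 : ∀ j : Fin N, ∫⁻ X : Fin N → E, (if i = j then 0 else w (X i - X j))
            ∂(Measure.pi fun _ => ρ) = if i = j then 0 else C w ρ := by
          intro j
          split_ifs with hij
          · simp
          · exact pair_lintegral hw ρ hij
        simp_rw [h2]
        rw [Finset.sum_ite]
        simp only [Finset.sum_const_zero, zero_add, Finset.sum_const, nsmul_eq_mul]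
        congr 2
        have : (Finset.univ.filter fun j : Fin N => ¬ i = j) = Finset.univ.erase i := by
          ext j; simp [eq_comm]
        rw [this, Finset.card_erase_of_mem (Finset.mem_univ i), Finset.card_univ, Fintype.card_fin]
      · intro j _
        split_ifs
        · exact measurable_const
        · exact hw.comp ((measurable_pi_apply i).sub (measurable_pi_apply j))
    simp_rw [h1]
    rw [Finset.sum_const, Finset.card_univ, Fintype.card_fin, nsmul_eq_mul]
    push_cast
    ring
  · intro i _
    refine Finset.measurable_sum _ fun j _ => ?_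
    split_ifs
    · exact measurable_const
    · exact hw.comp ((measurable_pi_apply i).sub (measurable_pi_apply j))

/-- Part of the energy not involving the particle `i`. -/
noncomputable def Rest (w : E → ℝ≥0∞) {N : ℕ} (X : Fin N → E) (i : Fin N) : ℝ≥0∞ :=
  ∑ k, ∑ j, if k = j ∨ k = i ∨ j = i then 0 else w (X k - X j)

lemma D_split {w : E → ℝ≥0∞} (hs : ∀ x, w (-x) = w x) {N : ℕ} (X : Fin N → E) (i : Fin N) :
    D w X = 2 * V w X i (X i) + Rest w X i := by
  have hpt : ∀ k j : Fin N, (if k = j then 0 else w (X k - X j))
      = (if k = i then (if i = j then 0 else w (X i - X j)) else 0)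
        + (if j = i then (if i = k then 0 else w (X i - X k)) else 0)
        + (if k = j ∨ k = i ∨ j = i then 0 else w (X k - X j)) := by
    intro k j
    by_cases hkj : k = j
    · subst hkj
      by_cases hki : k = i
      · subst hki
        simp only [if_true, true_or, add_zero]
      · simp only [if_true, if_neg hki, true_or, add_zero]
    · by_cases hki : k = i
      · subst hki
        have h1 : ¬ j = k := fun h => hkj h.symm
        simp only [if_neg hkj, if_neg h1, if_true, true_or, or_true, add_zero]
      · by_cases hji : j = i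
        · subst hji
          have h1 : ¬ j = k := fun h => hkj h.symm
          simp only [hkj, if_false, h1, if_true, zero_add, or_true, add_zero]
          rw [← hs, neg_sub]
        · simp [hkj, hki, hji]
  unfold D Rest V
  rw [Finset.sum_congr rfl fun k _ => Finset.sum_congr rfl fun j _ => hpt k j]
  simp only [Finset.sum_add_distrib]
  congr 1
  have e1 : ∑ k : Fin N, ∑ j : Fin N, (if k = i then (if i = j then 0 else w (X i - X j)) else 0)
      = ∑ j : Fin N, (if i = j then 0 else w (X i - X j)) := by
    rw [Finset.sum_eq_single i]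
    · simp
    · intro b _ hb; simp [hb]
    · intro h; exact absurd (Finset.mem_univ i) h
  have e2 : ∑ k : Fin N, ∑ j : Fin N, (if j = i then (if i = k then 0 else w (X i - X k)) else 0)
      = ∑ j : Fin N, (if i = j then 0 else w (X i - X j)) := by
    refine Finset.sum_congr rfl fun k _ => ?_
    rw [Finset.sum_eq_single i]
    · simp
    · intro b _ hb; simp [hb]
    · intro h; exact absurd (Finset.mem_univ i) h
  rw [e1, e2, two_mul]

lemma Rest_update (w : E → ℝ≥0∞) {N : ℕ} (X : Fin N → E) (i : Fin N) (x : E) :
    Rest w (Function.update X i x) i = Rest w X i := by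
  unfold Rest
  refine Finset.sum_congr rfl fun k _ => Finset.sum_congr rfl fun j _ => ?_
  split_ifs with h
  · rfl
  · push Not at h
    rw [Function.update_of_ne h.2.1, Function.update_of_ne h.2.2]

lemma V_update (w : E → ℝ≥0∞) {N : ℕ} (X : Fin N → E) (i : Fin N) (x y : E) :
    V w (Function.update X i x) i y = V w X i y := by
  unfold V
  refine Finset.sum_congr rfl fun j _ => ?_
  split_ifs with h
  · rfl
  · rw [Function.update_of_ne (fun h' => h h'.symm)]

lemma V_le_of_min {w : E → ℝ≥0∞} (hs : ∀ x, w (-x) = w x) {N : ℕ} {X : Fin N → E}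
    (hX : ∀ Y : Fin N → E, D w X ≤ D w Y) (hfin : D w X ≠ ∞) (i : Fin N) (x : E) :
    V w X i (X i) ≤ V w X i x := by
  have h := hX (Function.update X i x)
  rw [D_split hs X i, D_split hs (Function.update X i x) i, Rest_update, V_update,
    Function.update_self] at h
  have hR : Rest w X i ≠ ∞ := by
    rw [D_split hs X i] at hfin
    exact (ENNReal.add_ne_top.1 hfin).2
  have h2 := (ENNReal.add_le_add_iff_right hR).1 h
  have := (ENNReal.mul_le_mul_iff_right (a := 2) (by norm_num) (by norm_num)).1 h2
  exact this

/-- Averaged version of the single-particle minimality. -/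
lemma V_le_lintegral {w : E → ℝ≥0∞} (hs : ∀ x, w (-x) = w x) (hw : Measurable w)
    {N : ℕ} {X : Fin N → E}
    (hX : ∀ Y : Fin N → E, D w X ≤ D w Y) (hfin : D w X ≠ ∞) (i : Fin N)
    (ν : Measure E) [IsProbabilityMeasure ν] (a : E) :
    V w X i (X i) ≤ ∑ j, if i = j then 0 else ∫⁻ x, w (x - (X j - a)) ∂ν := by
  have h1 : V w X i (X i) = ∫⁻ x, V w X i (X i) ∂ν := by simp
  rw [h1]
  calc ∫⁻ x, V w X i (X i) ∂ν ≤ ∫⁻ x, V w X i (x + a) ∂ν :=
        lintegral_mono fun x => V_le_of_min hs hX hfin i (x + a)
    _ = ∑ j, if i = j then 0 else ∫⁻ x, w (x - (X j - a)) ∂ν := by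
        unfold V
        rw [lintegral_finsetSum]
        · refine Finset.sum_congr rfl fun j _ => ?_
          split_ifs with h
          · simp
          · refine lintegral_congr fun x => ?_
            congr 1
            abel
        · intro j _
          split_ifs
          · exact measurable_const
          · exact hw.comp ((measurable_id.add_const a).sub_const (X j))

end generic

end Pool.Agent.R221.PL
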