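import Pool.Agent.R221.PL.Tight

open MeasureTheory Filter Topology Set
open scoped ENNReal NNReal

namespace Pool.Agent.R221.PL

variable {d : ℕ}

/-- If every particle has a proportion `δ` of all the particles within distance `R`, then the
half-unit neighbourhood of every coordinate projection has bounded length. -/
lemma vol_U_bound {N : ℕ} (hN : N ≠ 0) (X : Fin N → EuclideanSpace ℝ (Fin d)) {R δ : ℝ}
    (hR : 0 ≤ R) (hδ : 0 < δ)
    (h : ∀ i, δ * N ≤ ((Finset.univ.filter fun j => ‖X j - X i‖ ≤ R).card : ℝ)) (k : Fin d) :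
    (volume (U fun l => X l k)).toReal ≤ (2 * R + 1) / δ := by
  classical
  set x : Fin N → ℝ := fun l => X l k with hx
  have hpt : ∀ s, (U x).indicator (fun _ => ENNReal.ofReal (δ * N)) s
      ≤ ∑ j, (Icc (x j - (R + 1 / 2)) (x j + (R + 1 / 2))).indicator (fun _ => (1 : ℝ≥0∞)) s := by
    intro s
    by_cases hs : s ∈ U x
    · rw [indicator_of_mem hs]
      obtain ⟨i, hi⟩ := mem_iUnion.1 hs
      have h1 : ∀ j, ‖X j - X i‖ ≤ R → s ∈ Icc (x j - (R + 1 / 2)) (x j + (R + 1 / 2)) := by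
        intro j hj
        have h2 : |x j - x i| ≤ R := by
          have := EuclideanSpace.norm_sq_eq (X j - X i)
          have h3 : ‖(X j - X i) k‖ ^ 2 ≤ ‖X j - X i‖ ^ 2 := by
            rw [this]
            exact Finset.single_le_sum (f := fun k => ‖(X j - X i) k‖ ^ 2)
              (fun _ _ => by positivity) (Finset.mem_univ k)
          have h4 : ‖(X j - X i) k‖ ≤ ‖X j - X i‖ :=
            (sq_le_sq₀ (norm_nonneg _) (norm_nonneg _)).1 h3
          exact (by simpa [hx] using h4 : |x j - x i| ≤ ‖X j - X i‖).trans hj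
        rw [abs_le] at h2
        exact ⟨by linarith [hi.1, hi.2, h2.1, h2.2], by linarith [hi.1, hi.2, h2.1, h2.2]⟩
      calc ENNReal.ofReal (δ * N)
          ≤ ENNReal.ofReal ((Finset.univ.filter fun j => ‖X j - X i‖ ≤ R).card : ℝ) :=
            ENNReal.ofReal_le_ofReal (h i)
        _ = ∑ j ∈ Finset.univ.filter (fun j => ‖X j - X i‖ ≤ R), (1 : ℝ≥0∞) := by
            rw [ENNReal.ofReal_natCast]; simp
        _ ≤ ∑ j ∈ Finset.univ.filter (fun j => ‖X j - X i‖ ≤ R),
            (Icc (x j - (R + 1 / 2)) (x j + (R + 1 / 2))).indicator (fun _ => (1 : ℝ≥0∞)) s := by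
            refine Finset.sum_le_sum fun j hj => ?_
            rw [indicator_of_mem (h1 j (Finset.mem_filter.1 hj).2)]
        _ ≤ _ := Finset.sum_le_sum_of_subset_of_nonneg (Finset.subset_univ _)
            (fun _ _ _ => zero_le)
    · rw [indicator_of_notMem hs]; exact zero_le
  have h1 := lintegral_mono (μ := volume) hpt
  rw [lintegral_indicator (U_meas x), lintegral_const, Measure.restrict_apply MeasurableSet.univ,
    univ_inter, lintegral_finsetSum _ (fun j _ => measurable_const.indicator measurableSet_Icc)] at h1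
  have h2 : ∀ j : Fin N, ∫⁻ s, (Icc (x j - (R + 1 / 2)) (x j + (R + 1 / 2))).indicator
      (fun _ => (1 : ℝ≥0∞)) s = ENNReal.ofReal (2 * R + 1) := by
    intro j
    rw [lintegral_indicator measurableSet_Icc, lintegral_const,
      Measure.restrict_apply MeasurableSet.univ, univ_inter, Real.volume_Icc, one_mul]
    congr 1
    ring
  rw [Finset.sum_congr rfl fun j _ => h2 j, Finset.sum_const, Finset.card_univ, Fintype.card_fin,
    nsmul_eq_mul] at h1
  have hvt : volume (U x) = ENNReal.ofReal (volume (U x)).toReal :=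
    (ENNReal.ofReal_toReal (vol_U_ne_top x)).symm
  have hNpos : (0 : ℝ) < N := by exact_mod_cast Nat.pos_of_ne_zero hN
  rw [hvt, ← ENNReal.ofReal_mul (by positivity), ← ENNReal.ofReal_natCast,
    ← ENNReal.ofReal_mul (by positivity), ENNReal.ofReal_le_ofReal_iff (by positivity)] at h1
  rw [le_div_iff₀ hδ]
  have : (N : ℝ) * (volume (U x)).toReal * δ ≤ N * (2 * R + 1) := by nlinarith
  nlinarith

theorem box_bound {w : EuclideanSpace ℝ (Fin d) → ℝ≥0∞} {g : ℝ → ℝ≥0∞}
    (hwg : ∀ x, w x = g ‖x‖) (hg : StrictMonoOn g (Ici 1)) (hw : Measurable w)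
    {K : ℝ} (hK : 0 < K)
    (hfar : ∀ c : ℝ, 0 < c → ∃ R : ℝ, 0 ≤ R ∧ ∀ x, R < ‖x‖ → ENNReal.ofReal (K - c) ≤ w x)
    (ν : Measure (EuclideanSpace ℝ (Fin d))) [IsProbabilityMeasure ν]
    (hν1 : ∀ y, ∫⁻ x, w (x - y) ∂ν ≤ ENNReal.ofReal K)
    (hν2 : ∀ R : ℝ, ∃ c : ℝ, 0 < c ∧ c ≤ K ∧ ∀ y, ‖y‖ ≤ R →
      ∫⁻ x, w (x - y) ∂ν ≤ ENNReal.ofReal (K - c))
    (hν3 : ∃ c : ℝ, 0 < c ∧ c ≤ K ∧ C w ν ≤ ENNReal.ofReal (K - c)) :
    ∃ B : ℝ, ∀ N : ℕ, 2 ≤ N → ∀ X : Fin N → EuclideanSpace ℝ (Fin d),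
      (∀ Y : Fin N → EuclideanSpace ℝ (Fin d), D w X ≤ D w Y) → ∀ i j, ‖X i - X j‖ ≤ B := by
  classical
  have hs : ∀ x, w (-x) = w x := fun x => by rw [hwg, hwg, norm_neg]
  obtain ⟨c0, hc0, hc0K, hCν⟩ := hν3
  obtain ⟨R0, hR00, hR0⟩ := hfar (c0 / 2) (by linarith)
  obtain ⟨c', hc', hc'K, hnear⟩ := hν2 R0
  set δ0 := c0 / (2 * K) with hδ0
  have hδ0pos : 0 < δ0 := by positivity
  have hδ01 : δ0 ≤ 1 := by
    rw [hδ0, div_le_one (by positivity)]; linarith
  set c1 := c' * δ0 with hc1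
  have hc1pos : 0 < c1 := by positivity
  have hc1K : c1 ≤ K := by nlinarith
  obtain ⟨R1, hR10, hR1⟩ := hfar (c1 / 2) (by linarith)
  set δ1 := c1 / (2 * K) with hδ1
  have hδ1pos : 0 < δ1 := by positivity
  have hδ11 : δ1 ≤ 1 := by
    rw [hδ1, div_le_one (by positivity)]; linarith
  set B1 := (2 * R1 + 1) / δ1 with hB1
  have hB1pos : 0 ≤ B1 := by positivity
  refine ⟨Real.sqrt (d * B1 ^ 2), fun N hN X hX => ?_⟩
  have hN0 : N ≠ 0 := by omega
  have hN1 : 1 ≤ N := by omega
  have hNR : (1 : ℝ) ≤ N := by exact_mod_cast hN1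
  -- finiteness
  have hfin : D w X ≠ ∞ := by
    obtain ⟨Y, hY⟩ := exists_D_le hw N ν
    refine ne_top_of_le_ne_top ?_ ((hX Y).trans hY)
    exact ENNReal.mul_ne_top (ENNReal.natCast_ne_top _)
      (ne_top_of_le_ne_top ENNReal.ofReal_ne_top hCν)
  -- a particle with small potential
  obtain ⟨i0, hi0⟩ := exists_V_le hw hN0 hX ν
  have hi0' : V w X i0 (X i0) ≤ ENNReal.ofReal (((N : ℝ) - 1) * (K - c0)) := by
    refine hi0.trans ?_
    rw [ENNReal.ofReal_mul (by linarith)]
    gcongr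
    rw [← Nat.cast_one (R := ℝ), ← Nat.cast_sub hN1, ENNReal.ofReal_natCast]
  have hcnt0 := near_count hN1 hc0 hc0K hR0 hi0'
  -- the potential of every particle is small
  have hall : ∀ i, V w X i (X i) ≤ ENNReal.ofReal (((N : ℝ) - 1) * (K - c1)) := by
    intro i
    refine (V_le_lintegral hs hw hX hfin i ν (X i0)).trans ?_
    set T := Finset.univ.filter fun j => ‖X j - X i0‖ ≤ R0 with hT
    have hTcard : ((N : ℝ) - 1) * δ0 ≤ ((T.erase i).card : ℝ) := by
      have h1 : (Finset.univ.filter fun j => j ≠ i0 ∧ ‖X j - X i0‖ ≤ R0) = T.erase i0 := by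
        ext j; simp [hT]
      rw [h1] at hcnt0
      have hi0T : i0 ∈ T := by simp [hT, hR00]
      have h2 : (T.erase i0).card = T.card - 1 := Finset.card_erase_of_mem hi0T
      have h3 : T.card - 1 ≤ (T.erase i).card := Finset.pred_card_le_card_erase
      have h4 : ((T.erase i0).card : ℝ) ≤ (T.erase i).card := by
        exact_mod_cast (h2.le.trans h3)
      linarith
    have h5 : ∀ j, (if i = j then 0 else ∫⁻ x, w (x - (X j - X i0)) ∂ν)
        ≤ (if i = j then 0 else ENNReal.ofReal (K - if j ∈ T then c' else 0)) := by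
      intro j
      split_ifs with h1 h2
      · exact le_rfl
      · exact hnear _ (by simpa [hT] using h2)
      · simpa using hν1 (X j - X i0)
    refine (Finset.sum_le_sum fun j _ => h5 j).trans ?_
    have h6 : ∑ j, (if i = j then 0 else ENNReal.ofReal (K - if j ∈ T then c' else 0))
        = ENNReal.ofReal (∑ j ∈ Finset.univ.erase i, (K - if j ∈ T then c' else 0)) := by
      rw [ENNReal.ofReal_sum_of_nonneg]
      · rw [← Finset.add_sum_erase Finset.univ _ (Finset.mem_univ i)]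
        rw [if_pos rfl, zero_add]
        refine Finset.sum_congr rfl fun j hj => ?_
        rw [if_neg (fun h => Finset.ne_of_mem_erase hj h.symm)]
      · intro j _
        split_ifs <;> linarith
    rw [h6]
    refine ENNReal.ofReal_le_ofReal ?_
    rw [Finset.sum_sub_distrib, Finset.sum_const, Finset.card_erase_of_mem (Finset.mem_univ i),
      Finset.card_univ, Fintype.card_fin, nsmul_eq_mul, Nat.cast_sub hN1, Nat.cast_one]
    have h7 : ∑ j ∈ Finset.univ.erase i, (if j ∈ T then c' else 0) = (T.erase i).card * c' := by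
      rw [← Finset.sum_filter, Finset.sum_const, nsmul_eq_mul]
      congr 3
      ext j; simp [and_comm]
    rw [h7, hc1]
    nlinarith
  -- every particle has many neighbours
  have hcnt : ∀ i, δ1 * N ≤ ((Finset.univ.filter fun j => ‖X j - X i‖ ≤ R1).card : ℝ) := by
    intro i
    have h1 := near_count hN1 hc1pos hc1K hR1 (hall i)
    have h2 : (Finset.univ.filter fun j => j ≠ i ∧ ‖X j - X i‖ ≤ R1)
        = (Finset.univ.filter fun j => ‖X j - X i‖ ≤ R1).erase i := by
      ext j; simp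
    have hi : i ∈ Finset.univ.filter fun j => ‖X j - X i‖ ≤ R1 := by simp [hR10]
    have h3 := Finset.card_erase_add_one hi
    rw [← h2] at h3
    have h4 : (((Finset.univ.filter fun j => j ≠ i ∧ ‖X j - X i‖ ≤ R1).card : ℝ) + 1)
        = ((Finset.univ.filter fun j => ‖X j - X i‖ ≤ R1).card : ℝ) := by exact_mod_cast h3
    rw [← h4]
    nlinarith
  -- conclusion
  intro i j
  have hcoord : ∀ k, |X i k - X j k| ≤ B1 := by
    intro k
    have h1 := coord_eq_of_norm_eq X i j (rigid hwg hg hX hfin i j) k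
    rw [← h1]
    refine (F_diff_le (fun l => X l k) (X i k) (X j k)).trans ?_
    exact vol_U_bound hN0 X hR10 hδ1pos hcnt k
  rw [EuclideanSpace.norm_eq]
  refine Real.sqrt_le_sqrt ?_
  calc ∑ k, ‖(X i - X j) k‖ ^ 2 ≤ ∑ k : Fin d, B1 ^ 2 := by
        refine Finset.sum_le_sum fun k _ => ?_
        refine pow_le_pow_left₀ (norm_nonneg _) ?_ 2
        simpa using hcoord k
    _ = d * B1 ^ 2 := by simp

end Pool.Agent.R221.PL
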