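import Pool.Agent.R221.PL.Power

open MeasureTheory Filter Topology Set
open scoped ENNReal NNReal

namespace Pool.Agent.R221.PL

variable {d : ℕ}

/-- Uniform probability on a ball. -/
noncomputable def unif (L : ℝ) : Measure (EuclideanSpace ℝ (Fin d)) :=
  (volume (Metric.ball (0 : EuclideanSpace ℝ (Fin d)) L))⁻¹ •
    (volume : Measure (EuclideanSpace ℝ (Fin d))).restrict (Metric.ball 0 L)

lemma vol_ball_ne_zero {L : ℝ} (hL : 0 < L) :
    volume (Metric.ball (0 : EuclideanSpace ℝ (Fin d)) L) ≠ 0 :=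
  (Metric.measure_ball_pos _ _ hL).ne'

lemma isProb_unif {L : ℝ} (hL : 0 < L) :
    IsProbabilityMeasure (unif L : Measure (EuclideanSpace ℝ (Fin d))) := by
  constructor
  unfold unif
  rw [Measure.smul_apply, Measure.restrict_apply MeasurableSet.univ, univ_inter, smul_eq_mul]
  exact ENNReal.inv_mul_cancel (vol_ball_ne_zero hL) measure_ball_lt_top.ne

lemma lintegral_unif (L : ℝ) (f : EuclideanSpace ℝ (Fin d) → ℝ≥0∞) :
    ∫⁻ x, f x ∂(unif L) = (volume (Metric.ball (0 : EuclideanSpace ℝ (Fin d)) L))⁻¹ *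
      ∫⁻ x in Metric.ball 0 L, f x := by
  unfold unif
  rw [lintegral_smul_measure, smul_eq_mul]

lemma lintegral_ball_translate (f : EuclideanSpace ℝ (Fin d) → ℝ≥0∞)
    (y : EuclideanSpace ℝ (Fin d)) (r : ℝ) :
    ∫⁻ x in Metric.ball y r, f (x - y) = ∫⁻ z in Metric.ball 0 r, f z := by
  rw [← lintegral_indicator measurableSet_ball, ← lintegral_indicator measurableSet_ball]
  rw [← lintegral_sub_right_eq_self (fun z => (Metric.ball 0 r).indicator f z) y]
  refine lintegral_congr fun x => ?_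
  by_cases hx : x ∈ Metric.ball y r
  · rw [indicator_of_mem hx, indicator_of_mem]
    rw [mem_ball_zero_iff, ← dist_eq_norm]
    exact hx
  · rw [indicator_of_notMem hx, indicator_of_notMem]
    rw [mem_ball_zero_iff, ← dist_eq_norm]
    exact hx

lemma caseA (hd : 1 ≤ d) {α β : ℝ} (hα : -(d : ℝ) < α) (h : α < β) (hβ : 0 ≤ β) :
    CaseA (wfun α β : EuclideanSpace ℝ (Fin d) → ℝ≥0∞) := by
  refine ⟨fun M => ?_, unif 1, isProb_unif one_pos, ?_⟩
  · have h1 := (tendsto_prof_atTop hβ h).eventually_ge_atTop (M + prof α β 1)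
    obtain ⟨R, hR⟩ := eventually_atTop.1 h1
    refine ⟨max R 0, le_max_right _ _, fun x hx => ?_⟩
    have hx0 : 0 < ‖x‖ := lt_of_le_of_lt (le_max_right _ _) hx
    unfold wfun
    rw [gfun_pos α β hx0]
    have h2 := hR ‖x‖ ((le_max_left _ _).trans hx.le)
    rw [← ENNReal.ofReal_coe_nnreal]
    exact ENNReal.ofReal_le_ofReal (by linarith)
  · have hfin := lintegral_wfun_lt_top hd hα h (R := 2) two_pos
    have hv := vol_ball_ne_zero (d := d) one_pos
    have hvt : volume (Metric.ball (0 : EuclideanSpace ℝ (Fin d)) 1) ≠ ∞ := measure_ball_lt_top.ne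
    set I := ∫⁻ x in Metric.ball (0 : EuclideanSpace ℝ (Fin d)) 2, wfun α β x with hI
    have hsymm : ∀ x : EuclideanSpace ℝ (Fin d), wfun α β (-x) = wfun α β x := fun x => by
      unfold wfun; rw [norm_neg]
    have hinner : ∀ x ∈ Metric.ball (0 : EuclideanSpace ℝ (Fin d)) 1,
        ∫⁻ y, wfun α β (x - y) ∂(unif 1) ≤
          (volume (Metric.ball (0 : EuclideanSpace ℝ (Fin d)) 1))⁻¹ * I := by
      intro x hx
      rw [lintegral_unif]
      gcongr
      have h1 : ∀ y, wfun α β (x - y) = wfun α β (y - x) := fun y => by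
        rw [← hsymm, neg_sub]
      simp_rw [h1]
      rw [hI, ← lintegral_ball_translate (wfun α β) x 2]
      refine lintegral_mono_set ?_
      intro y hy
      rw [Metric.mem_ball] at *
      calc dist y x ≤ dist y 0 + dist 0 x := dist_triangle _ _ _
        _ < 2 := by rw [dist_comm 0 x]; linarith
    have : C (wfun α β) (unif 1 : Measure (EuclideanSpace ℝ (Fin d))) ≤
        (volume (Metric.ball (0 : EuclideanSpace ℝ (Fin d)) 1))⁻¹ * I := by
      unfold C
      rw [lintegral_unif]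
      calc (volume (Metric.ball (0 : EuclideanSpace ℝ (Fin d)) 1))⁻¹ *
            ∫⁻ x in Metric.ball (0 : EuclideanSpace ℝ (Fin d)) 1,
              ∫⁻ y, wfun α β (x - y) ∂(unif 1)
          ≤ (volume (Metric.ball (0 : EuclideanSpace ℝ (Fin d)) 1))⁻¹ *
            ∫⁻ x in Metric.ball (0 : EuclideanSpace ℝ (Fin d)) 1,
              (volume (Metric.ball (0 : EuclideanSpace ℝ (Fin d)) 1))⁻¹ * I := by
            exact mul_le_mul' le_rfl (setLIntegral_mono measurable_const hinner)
        _ = (volume (Metric.ball (0 : EuclideanSpace ℝ (Fin d)) 1))⁻¹ * I := by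
            rw [setLIntegral_const, mul_left_comm, ENNReal.inv_mul_cancel hv hvt, mul_one]
    exact ne_top_of_le_ne_top (ENNReal.mul_ne_top (ENNReal.inv_ne_top.2 hv) hfin.ne) this

lemma tendsto_pw_atTop_zero {γ : ℝ} (hγ : γ < 0) : Tendsto (pw γ) atTop (𝓝 0) := by
  have h1 := (tendsto_rpow_neg_atTop (neg_pos.2 hγ)).div_const γ
  rw [neg_neg, zero_div] at h1
  refine h1.congr fun r => ?_
  unfold pw
  rw [if_neg hγ.ne]

lemma tendsto_prof_atTop_zero {α β : ℝ} (h : α < β) (hβ : β < 0) :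
    Tendsto (prof α β) atTop (𝓝 0) := by
  have := (tendsto_pw_atTop_zero (h.trans hβ)).neg.add (tendsto_pw_atTop_zero hβ)
  rw [neg_zero, add_zero] at this
  exact this

lemma prof_one_neg {α β : ℝ} (h : α < β) (hβ : β < 0) : prof α β 1 < 0 := by
  have hα : α < 0 := h.trans hβ
  unfold prof pw
  rw [if_neg hα.ne, if_neg hβ.ne, Real.one_rpow, Real.one_rpow]
  have h1 : 1 / β < 1 / α := one_div_lt_one_div_of_neg_of_lt hβ h
  linarith

lemma prof_far {α β : ℝ} (h : α < β) (hβ : β < 0) :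
    ∃ r0 : ℝ, 1 ≤ r0 ∧ ∀ r, r0 ≤ r → prof α β r ≤ -(1 / (2 * -β) * r ^ β) := by
  obtain ⟨s0, hs0, hs01, hsm⟩ := exists_small (sub_pos.2 h)
  refine ⟨s0⁻¹, (one_le_inv₀ hs0).2 hs01, fun r hr => ?_⟩
  have hr0 : 0 < r := lt_of_lt_of_le (by positivity) hr
  have h2 := hsm r⁻¹ (by positivity) (by rwa [inv_le_comm₀ hr0 hs0])
  have h1 : r ^ α = r ^ β * (r⁻¹) ^ (β - α) := by
    rw [Real.inv_rpow hr0.le, ← Real.rpow_neg hr0.le, ← Real.rpow_add hr0]; congr 1; ring
  have hα : α < 0 := h.trans hβ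
  have h3 : 0 < r ^ β := Real.rpow_pos_of_pos hr0 _
  have h4 : r ^ α ≤ r ^ β * (1 / 2) := by rw [h1]; gcongr
  unfold prof pw
  rw [if_neg hα.ne, if_neg hβ.ne]
  have h5 : -(r ^ α / α) = r ^ α / -α := by rw [div_neg]
  have h6 : r ^ β / β = -(r ^ β / -β) := by rw [div_neg, neg_neg]
  rw [h5, h6]
  have h7 : r ^ α / -α ≤ r ^ β * (1 / 2) / -β := by
    have hb : 0 < -β := by linarith
    have ha : -β ≤ -α := by linarith
    calc r ^ α / -α ≤ r ^ α / -β :=
          div_le_div_of_nonneg_left (Real.rpow_nonneg hr0.le _) hb ha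
      _ ≤ r ^ β * (1 / 2) / -β := by gcongr
  have h8 : -(1 / (2 * -β) * r ^ β) = r ^ β * (1 / 2) / -β - r ^ β / -β := by
    have : -β ≠ 0 := by linarith
    have hb' : β ≠ 0 := hβ.ne
    field_simp
    ring
  rw [h8]
  linarith

lemma caseB (hd : 1 ≤ d) {α β : ℝ} (hα : -(d : ℝ) < α) (h : α < β) (hβ : β < 0) :
    CaseB (wfun α β : EuclideanSpace ℝ (Fin d) → ℝ≥0∞) := by
  have : Nonempty (Fin d) := ⟨⟨0, hd⟩⟩
  have : Nontrivial (EuclideanSpace ℝ (Fin d)) := inferInstance
  set K := -prof α β 1 with hK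
  have hKpos : 0 < K := by have := prof_one_neg h hβ; linarith
  obtain ⟨r0, hr0, hfarp⟩ := prof_far h hβ
  set κ := 1 / (2 * -β) with hκ
  have hκpos : 0 < κ := by have : 0 < -β := by linarith
                           positivity
  have hr0pos : 0 < r0 := by linarith
  have hκK : ∀ r, r0 ≤ r → κ * r ^ β ≤ K := by
    intro r hr
    have h1 := hfarp r hr
    have h2 := prof_one_le h (lt_of_lt_of_le hr0pos hr)
    linarith
  -- the near part
  have hfin := lintegral_wfun_lt_top hd hα h (R := r0) hr0pos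
  set I := ∫⁻ x in Metric.ball (0 : EuclideanSpace ℝ (Fin d)) r0, wfun α β x with hI
  set i0 := I.toReal with hi0
  have hIi0 : I = ENNReal.ofReal i0 := (ENNReal.ofReal_toReal hfin.ne).symm
  -- volume of the unit ball
  set v1 := (volume (Metric.ball (0 : EuclideanSpace ℝ (Fin d)) 1)).toReal with hv1
  have hv1pos : 0 < v1 := ENNReal.toReal_pos (vol_ball_ne_zero one_pos) measure_ball_lt_top.ne
  have hvL : ∀ L : ℝ, 0 < L → volume (Metric.ball (0 : EuclideanSpace ℝ (Fin d)) L)
      = ENNReal.ofReal (L ^ d * v1) := by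
    intro L hL
    rw [Measure.addHaar_ball volume _ hL.le, finrank_euclideanSpace, Fintype.card_fin,
      ENNReal.ofReal_mul (by positivity), hv1, ENNReal.ofReal_toReal measure_ball_lt_top.ne]
  -- choice of the radius
  obtain ⟨L, hLr0, hLbig⟩ : ∃ L : ℝ, r0 ≤ L ∧ i0 ≤ κ / 2 * (3 * L) ^ β * (L ^ d * v1) := by
    have hexp : 0 < β + d := by linarith
    have ht := tendsto_rpow_atTop hexp
    have hcst : 0 < κ / 2 * (3 : ℝ) ^ β * v1 := by positivity
    have h1 := ht.eventually_ge_atTop (i0 / (κ / 2 * (3 : ℝ) ^ β * v1))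
    obtain ⟨L, hL1, hL2⟩ := (h1.and (eventually_ge_atTop r0)).exists
    refine ⟨L, hL2, ?_⟩
    have hLpos : 0 < L := lt_of_lt_of_le hr0pos hL2
    rw [div_le_iff₀ hcst, Real.rpow_add hLpos, Real.rpow_natCast] at hL1
    rw [Real.mul_rpow (by norm_num) hLpos.le]
    calc i0 ≤ L ^ β * L ^ d * (κ / 2 * 3 ^ β * v1) := hL1
      _ = _ := by ring
  have hLpos : 0 < L := lt_of_lt_of_le hr0pos hLr0
  set v := L ^ d * v1 with hv
  have hvpos : 0 < v := by positivity
  have hsymm : ∀ x : EuclideanSpace ℝ (Fin d), wfun α β (-x) = wfun α β x := fun x => by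
    unfold wfun; rw [norm_neg]
  -- main estimate
  have hmain : ∀ y : EuclideanSpace ℝ (Fin d),
      ∫⁻ x, wfun α β (x - y) ∂(unif L) ≤ ENNReal.ofReal (K - κ / 2 * (‖y‖ + L) ^ β) := by
    intro y
    rw [lintegral_unif, hvL L hLpos]
    set s := (‖y‖ + L) ^ β with hs
    have hspos : 0 < s := Real.rpow_pos_of_pos (by positivity) _
    have hκs : κ * s ≤ K := hκK _ (by linarith [norm_nonneg y])
    have hfarle : ∀ x ∈ Metric.ball (0 : EuclideanSpace ℝ (Fin d)) L \ Metric.ball y r0,
        wfun α β (x - y) ≤ ENNReal.ofReal (K - κ * s) := by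
      intro x hx
      have h1 : r0 ≤ ‖x - y‖ := by
        have := hx.2
        rw [Metric.mem_ball, not_lt, dist_eq_norm] at this
        exact this
      have h2 : ‖x - y‖ ≤ ‖y‖ + L := by
        have h3 : ‖x‖ < L := by
          have := hx.1
          rwa [mem_ball_zero_iff] at this
        calc ‖x - y‖ ≤ ‖x‖ + ‖y‖ := norm_sub_le _ _
          _ ≤ ‖y‖ + L := by linarith
      unfold wfun
      rw [gfun_pos α β (by linarith)]
      refine ENNReal.ofReal_le_ofReal ?_
      have h4 := hfarp _ h1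
      have h5 : s ≤ ‖x - y‖ ^ β := Real.rpow_le_rpow_of_nonpos (by linarith) h2 hβ.le
      have h6 : κ * s ≤ κ * ‖x - y‖ ^ β := by gcongr
      linarith
    have hfarint : ∫⁻ x in Metric.ball (0 : EuclideanSpace ℝ (Fin d)) L \ Metric.ball y r0,
        wfun α β (x - y) ≤ ENNReal.ofReal ((K - κ * s) * v) := by
      calc _ ≤ ∫⁻ x in Metric.ball (0 : EuclideanSpace ℝ (Fin d)) L \ Metric.ball y r0,
            ENNReal.ofReal (K - κ * s) := setLIntegral_mono measurable_const hfarle
        _ ≤ ENNReal.ofReal (K - κ * s) * volume (Metric.ball (0 : EuclideanSpace ℝ (Fin d)) L) := by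
            rw [setLIntegral_const]
            gcongr
            exact sdiff_subset
        _ = _ := by
            rw [hvL L hLpos, ← ENNReal.ofReal_mul (by linarith)]
    have htot : ∫⁻ x in Metric.ball (0 : EuclideanSpace ℝ (Fin d)) L, wfun α β (x - y)
        ≤ ENNReal.ofReal ((K - κ / 2 * s) * v) := by
      by_cases hy : ‖y‖ < L + r0
      · have hle : i0 ≤ κ / 2 * s * v := by
          refine hLbig.trans ?_
          have : (3 * L) ^ β ≤ s := Real.rpow_le_rpow_of_nonpos (by positivity)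
            (by linarith) hβ.le
          gcongr
        calc _ ≤ ∫⁻ x in Metric.ball y r0 ∪ (Metric.ball (0 : EuclideanSpace ℝ (Fin d)) L \
              Metric.ball y r0), wfun α β (x - y) := by
              refine lintegral_mono_set ?_
              intro x hx
              by_cases hxy : x ∈ Metric.ball y r0
              · exact Or.inl hxy
              · exact Or.inr ⟨hx, hxy⟩
          _ ≤ (∫⁻ x in Metric.ball y r0, wfun α β (x - y)) +
              ∫⁻ x in (Metric.ball (0 : EuclideanSpace ℝ (Fin d)) L \ Metric.ball y r0),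
                wfun α β (x - y) := lintegral_union_le _ _ _
          _ ≤ ENNReal.ofReal i0 + ENNReal.ofReal ((K - κ * s) * v) := by
              gcongr
              rw [lintegral_ball_translate (wfun α β) y r0, ← hI, hIi0]
          _ = ENNReal.ofReal (i0 + (K - κ * s) * v) := by
              rw [ENNReal.ofReal_add ENNReal.toReal_nonneg (mul_nonneg (by linarith) hvpos.le)]
          _ ≤ _ := ENNReal.ofReal_le_ofReal (by nlinarith)
      · push Not at hy
        have heq : Metric.ball (0 : EuclideanSpace ℝ (Fin d)) L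
            = Metric.ball (0 : EuclideanSpace ℝ (Fin d)) L \ Metric.ball y r0 := by
          ext x
          refine ⟨fun hx => ⟨hx, fun hxy => ?_⟩, fun hx => hx.1⟩
          rw [mem_ball_zero_iff] at hx
          rw [Metric.mem_ball, dist_comm, dist_eq_norm] at hxy
          have : ‖y‖ ≤ ‖y - x‖ + ‖x‖ := by
            calc ‖y‖ = ‖(y - x) + x‖ := by rw [sub_add_cancel]
              _ ≤ _ := norm_add_le _ _
          linarith
        rw [heq]
        refine hfarint.trans (ENNReal.ofReal_le_ofReal ?_)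
        have : 0 < κ * s * v := by positivity
        nlinarith
    calc (ENNReal.ofReal v)⁻¹ * ∫⁻ x in Metric.ball (0 : EuclideanSpace ℝ (Fin d)) L,
          wfun α β (x - y) ≤ (ENNReal.ofReal v)⁻¹ * ENNReal.ofReal ((K - κ / 2 * s) * v) := by
          gcongr
      _ = ENNReal.ofReal (K - κ / 2 * s) := by
          rw [ENNReal.ofReal_mul' hvpos.le, mul_left_comm, ENNReal.inv_mul_cancel
            (by rw [ne_eq, ENNReal.ofReal_eq_zero, not_le]; exact hvpos) ENNReal.ofReal_ne_top,
            mul_one]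
  have hLball : ∀ R : ℝ, 0 ≤ R → 0 < κ / 2 * (R + L) ^ β ∧ κ / 2 * (R + L) ^ β ≤ K ∧
      ∀ y : EuclideanSpace ℝ (Fin d), ‖y‖ ≤ R →
        ∫⁻ x, wfun α β (x - y) ∂(unif L) ≤ ENNReal.ofReal (K - κ / 2 * (R + L) ^ β) := by
    intro R hR
    have hpos : 0 < (R + L) ^ β := Real.rpow_pos_of_pos (by positivity) _
    refine ⟨by positivity, ?_, fun y hy => (hmain y).trans (ENNReal.ofReal_le_ofReal ?_)⟩
    · have := hκK (R + L) (by linarith)
      nlinarith
    · have : (R + L) ^ β ≤ (‖y‖ + L) ^ β :=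
        Real.rpow_le_rpow_of_nonpos (by positivity) (by linarith) hβ.le
      have h2 : κ / 2 * (R + L) ^ β ≤ κ / 2 * (‖y‖ + L) ^ β := by gcongr
      linarith
  refine ⟨K, hKpos, ?_, unif L, isProb_unif hLpos, ?_, ?_, ?_⟩
  · intro c hc
    have h1 := (tendsto_prof_atTop_zero h hβ).eventually (lt_mem_nhds (neg_lt_zero.2 hc))
    obtain ⟨R, hR⟩ := eventually_atTop.1 h1
    refine ⟨max R 0, le_max_right _ _, fun x hx => ?_⟩
    have hx0 : 0 < ‖x‖ := lt_of_le_of_lt (le_max_right _ _) hx
    unfold wfun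
    rw [gfun_pos α β hx0]
    have h2 := hR ‖x‖ ((le_max_left _ _).trans hx.le)
    exact ENNReal.ofReal_le_ofReal (by linarith)
  · intro y
    refine (hmain y).trans (ENNReal.ofReal_le_ofReal ?_)
    have : 0 < (‖y‖ + L) ^ β := Real.rpow_pos_of_pos (by positivity) _
    have : 0 < κ / 2 * (‖y‖ + L) ^ β := by positivity
    linarith
  · intro R
    obtain ⟨h1, h2, h3⟩ := hLball (max R 0) (le_max_right _ _)
    exact ⟨_, h1, h2, fun y hy => h3 y (hy.trans (le_max_left _ _))⟩
  · obtain ⟨h1, h2, h3⟩ := hLball L hLpos.le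
    refine ⟨_, h1, h2, ?_⟩
    unfold C
    rw [lintegral_unif]
    have h4 : ∀ x ∈ Metric.ball (0 : EuclideanSpace ℝ (Fin d)) L,
        ∫⁻ y, wfun α β (x - y) ∂(unif L) ≤ ENNReal.ofReal (K - κ / 2 * (L + L) ^ β) := by
      intro x hx
      rw [mem_ball_zero_iff] at hx
      have h5 : ∀ y, wfun α β (x - y) = wfun α β (y - x) := fun y => by
        rw [← hsymm, neg_sub]
      simp_rw [h5]
      exact h3 x hx.le
    calc (volume (Metric.ball (0 : EuclideanSpace ℝ (Fin d)) L))⁻¹ *
          ∫⁻ x in Metric.ball (0 : EuclideanSpace ℝ (Fin d)) L, ∫⁻ y, wfun α β (x - y) ∂(unif L)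
        ≤ (volume (Metric.ball (0 : EuclideanSpace ℝ (Fin d)) L))⁻¹ *
          ∫⁻ x in Metric.ball (0 : EuclideanSpace ℝ (Fin d)) L,
            ENNReal.ofReal (K - κ / 2 * (L + L) ^ β) := by
          exact mul_le_mul' le_rfl (setLIntegral_mono measurable_const h4)
      _ = _ := by
          rw [setLIntegral_const, mul_left_comm, ENNReal.inv_mul_cancel
            (vol_ball_ne_zero hLpos) measure_ball_lt_top.ne, mul_one]

end Pool.Agent.R221.PL
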