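import Pool.Agent.R221.PL.Basic

open MeasureTheory Filter Topology Set
open scoped ENNReal NNReal

namespace Pool.Agent.R221.PL

/-- The half-unit neighbourhood of a finite family of reals. -/
def U {N : ℕ} (x : Fin N → ℝ) : Set ℝ := ⋃ i, Icc (x i - 1 / 2) (x i + 1 / 2)

/-- The compression map. -/
noncomputable def F {N : ℕ} (x : Fin N → ℝ) (t : ℝ) : ℝ := (volume (U x ∩ Iic t)).toReal

lemma U_meas {N : ℕ} (x : Fin N → ℝ) : MeasurableSet (U x) :=
  MeasurableSet.iUnion fun _ => measurableSet_Icc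

lemma vol_U_le {N : ℕ} (x : Fin N → ℝ) : volume (U x) ≤ N := by
  unfold U
  refine (measure_iUnion_le _).trans ?_
  have : ∀ i : Fin N, volume (Icc (x i - 1 / 2) (x i + 1 / 2)) = 1 := by
    intro i
    have : x i + 1 / 2 - (x i - 1 / 2) = 1 := by ring
    rw [Real.volume_Icc, this, ENNReal.ofReal_one]
  rw [tsum_fintype, Finset.sum_congr rfl fun i _ => this i]
  simp

lemma vol_U_ne_top {N : ℕ} (x : Fin N → ℝ) : volume (U x) ≠ ∞ :=
  ne_top_of_le_ne_top (ENNReal.natCast_ne_top N) (vol_U_le x)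

lemma F_nonneg {N : ℕ} (x : Fin N → ℝ) (t : ℝ) : 0 ≤ F x t := ENNReal.toReal_nonneg

lemma F_le_vol {N : ℕ} (x : Fin N → ℝ) (t : ℝ) : F x t ≤ (volume (U x)).toReal :=
  ENNReal.toReal_mono (vol_U_ne_top x) (measure_mono inter_subset_left)

lemma vol_toReal_le {N : ℕ} (x : Fin N → ℝ) : (volume (U x)).toReal ≤ N := by
  have := ENNReal.toReal_mono (ENNReal.natCast_ne_top N) (vol_U_le x)
  simpa using this

lemma F_sub {N : ℕ} (x : Fin N → ℝ) {s t : ℝ} (hst : s ≤ t) :
    F x t - F x s = (volume (U x ∩ Ioc s t)).toReal := by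
  unfold F
  have h1 : U x ∩ Iic t = (U x ∩ Iic s) ∪ (U x ∩ Ioc s t) := by
    rw [← inter_union_distrib_left, Iic_union_Ioc_eq_Iic hst]
  have hd : Disjoint (U x ∩ Iic s) (U x ∩ Ioc s t) := by
    rw [Set.disjoint_left]
    intro z hz hz'
    exact absurd hz.2 (not_le.2 hz'.2.1)
  rw [h1, measure_union hd ((U_meas x).inter measurableSet_Ioc), ENNReal.toReal_add]
  · ring
  · exact ne_top_of_le_ne_top (vol_U_ne_top x) (measure_mono inter_subset_left)
  · exact ne_top_of_le_ne_top (vol_U_ne_top x) (measure_mono inter_subset_left)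

lemma F_props_le {N : ℕ} (x : Fin N → ℝ) (i j : Fin N) (hij : x i ≤ x j) :
    |F x (x j) - F x (x i)| ≤ |x j - x i| ∧
    (|F x (x j) - F x (x i)| = |x j - x i| ∨ 1 ≤ |F x (x j) - F x (x i)|) := by
  rw [F_sub x hij, abs_of_nonneg ENNReal.toReal_nonneg, abs_of_nonneg (sub_nonneg.2 hij)]
  have hup : (volume (U x ∩ Ioc (x i) (x j))).toReal ≤ x j - x i := by
    have h1 : volume (U x ∩ Ioc (x i) (x j)) ≤ ENNReal.ofReal (x j - x i) := by
      refine (measure_mono inter_subset_right).trans ?_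
      rw [Real.volume_Ioc]
    have := ENNReal.toReal_mono ENNReal.ofReal_ne_top h1
    rwa [ENNReal.toReal_ofReal (sub_nonneg.2 hij)] at this
  refine ⟨hup, ?_⟩
  by_cases h1 : x j - x i < 1
  · left
    have hsub : Ioc (x i) (x j) ⊆ U x := by
      intro s hs
      rcases le_total s (x i + 1 / 2) with h | h
      · exact mem_iUnion.2 ⟨i, ⟨by linarith [hs.1], h⟩⟩
      · exact mem_iUnion.2 ⟨j, ⟨by linarith, by linarith [hs.2]⟩⟩
    rw [inter_eq_right.2 hsub, Real.volume_Ioc, ENNReal.toReal_ofReal (sub_nonneg.2 hij)]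
  · right
    push Not at h1
    have hsub : Ioc (x i) (x i + 1 / 2) ∪ Ioc (x j - 1 / 2) (x j) ⊆ U x ∩ Ioc (x i) (x j) := by
      intro s hs
      rcases hs with hs | hs
      · exact ⟨mem_iUnion.2 ⟨i, ⟨by linarith [hs.1], hs.2⟩⟩, ⟨hs.1, by linarith [hs.2]⟩⟩
      · exact ⟨mem_iUnion.2 ⟨j, ⟨by linarith [hs.1], by linarith [hs.2]⟩⟩,
          ⟨by linarith [hs.1], hs.2⟩⟩
    have hd : Disjoint (Ioc (x i) (x i + 1 / 2)) (Ioc (x j - 1 / 2) (x j)) := by
      rw [Set.disjoint_left]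
      intro z hz hz'
      have := hz.2
      have := hz'.1
      linarith
    have h2 := measure_mono (μ := volume) hsub
    rw [measure_union hd measurableSet_Ioc, Real.volume_Ioc, Real.volume_Ioc,
      ← ENNReal.ofReal_add (by linarith) (by linarith)] at h2
    have h3 : x i + 1 / 2 - x i + (x j - (x j - 1 / 2)) = 1 := by ring
    rw [h3, ENNReal.ofReal_one] at h2
    have h4 := ENNReal.toReal_mono
      (ne_top_of_le_ne_top (vol_U_ne_top x) (measure_mono inter_subset_left)) h2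
    simpa using h4

lemma F_props {N : ℕ} (x : Fin N → ℝ) (i j : Fin N) :
    |F x (x i) - F x (x j)| ≤ |x i - x j| ∧
    (|F x (x i) - F x (x j)| = |x i - x j| ∨ 1 ≤ |F x (x i) - F x (x j)|) := by
  rcases le_total (x i) (x j) with h | h
  · have := F_props_le x i j h
    rwa [abs_sub_comm, abs_sub_comm (x j)] at this
  · exact F_props_le x j i h

lemma F_diff_le {N : ℕ} (x : Fin N → ℝ) (s t : ℝ) :
    |F x s - F x t| ≤ (volume (U x)).toReal := by
  have h1 := F_nonneg x s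
  have h2 := F_nonneg x t
  have h3 := F_le_vol x s
  have h4 := F_le_vol x t
  rw [abs_le]; constructor <;> linarith

section euclid

variable {d : ℕ}

lemma sum_lt_of_le_of_lt {ι : Type*} [DecidableEq ι] {s : Finset ι} {a b : ι → ℝ≥0∞}
    (hle : ∀ i ∈ s, a i ≤ b i) (hfin : ∑ i ∈ s, b i ≠ ∞) {i : ι} (hi : i ∈ s) (hlt : a i < b i) :
    ∑ i ∈ s, a i < ∑ i ∈ s, b i := by
  rw [← Finset.add_sum_erase s a hi, ← Finset.add_sum_erase s b hi] at *
  have h1 : ∑ x ∈ s.erase i, b x ≠ ∞ := (ENNReal.add_ne_top.1 hfin).2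
  calc a i + ∑ x ∈ s.erase i, a x ≤ a i + ∑ x ∈ s.erase i, b x := by
        gcongr with x hx
        exact hle x (Finset.mem_of_mem_erase hx)
    _ < b i + ∑ x ∈ s.erase i, b x := ENNReal.add_lt_add_right h1 hlt

/-- Compression of a configuration. -/
noncomputable def comp {N : ℕ} (X : Fin N → EuclideanSpace ℝ (Fin d)) (i : Fin N) :
    EuclideanSpace ℝ (Fin d) :=
  WithLp.toLp 2 (fun k => F (fun l => X l k) (X i k))

lemma comp_apply {N : ℕ} (X : Fin N → EuclideanSpace ℝ (Fin d)) (i : Fin N) (k : Fin d) :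
    comp X i k = F (fun l => X l k) (X i k) := rfl

lemma comp_coord {N : ℕ} (X : Fin N → EuclideanSpace ℝ (Fin d)) (i j : Fin N) (k : Fin d) :
    |comp X i k - comp X j k| ≤ |X i k - X j k| ∧
    (|comp X i k - comp X j k| = |X i k - X j k| ∨ 1 ≤ |comp X i k - comp X j k|) :=
  F_props (fun l => X l k) i j

lemma comp_norm_sq {N : ℕ} (X : Fin N → EuclideanSpace ℝ (Fin d)) (i j : Fin N) :
    ‖comp X i - comp X j‖ ^ 2 = ∑ k, |comp X i k - comp X j k| ^ 2 := by
  rw [EuclideanSpace.norm_sq_eq]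
  rfl

lemma norm_sq_sub {N : ℕ} (X : Fin N → EuclideanSpace ℝ (Fin d)) (i j : Fin N) :
    ‖X i - X j‖ ^ 2 = ∑ k, |X i k - X j k| ^ 2 := by
  rw [EuclideanSpace.norm_sq_eq]
  rfl

lemma comp_norm_le {N : ℕ} (X : Fin N → EuclideanSpace ℝ (Fin d)) (i j : Fin N) :
    ‖comp X i - comp X j‖ ≤ ‖X i - X j‖ := by
  have h : ‖comp X i - comp X j‖ ^ 2 ≤ ‖X i - X j‖ ^ 2 := by
    rw [comp_norm_sq, norm_sq_sub]
    exact Finset.sum_le_sum fun k _ => pow_le_pow_left₀ (abs_nonneg _) (comp_coord X i j k).1 2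
  exact (sq_le_sq₀ (norm_nonneg _) (norm_nonneg _)).1 h

lemma comp_norm_dich {N : ℕ} (X : Fin N → EuclideanSpace ℝ (Fin d)) (i j : Fin N) :
    ‖comp X i - comp X j‖ = ‖X i - X j‖ ∨ 1 ≤ ‖comp X i - comp X j‖ := by
  by_cases h : ∀ k, |comp X i k - comp X j k| = |X i k - X j k|
  · left
    have h2 : ‖comp X i - comp X j‖ ^ 2 = ‖X i - X j‖ ^ 2 := by
      rw [comp_norm_sq, norm_sq_sub]
      exact Finset.sum_congr rfl fun k _ => by rw [h k]
    exact (sq_eq_sq₀ (norm_nonneg _) (norm_nonneg _)).1 h2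
  · right
    push Not at h
    obtain ⟨k, hk⟩ := h
    have h1 := (comp_coord X i j k).2.resolve_left hk
    have h2 : (1 : ℝ) ≤ ‖comp X i - comp X j‖ ^ 2 := by
      rw [comp_norm_sq]
      calc (1 : ℝ) ≤ |comp X i k - comp X j k| ^ 2 := by nlinarith
        _ ≤ _ := Finset.single_le_sum (f := fun k => |comp X i k - comp X j k| ^ 2)
          (fun _ _ => by positivity) (Finset.mem_univ k)
    nlinarith [norm_nonneg (comp X i - comp X j)]

/-- If all distances are preserved, then so are all coordinate distances. -/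
lemma coord_eq_of_norm_eq {N : ℕ} (X : Fin N → EuclideanSpace ℝ (Fin d)) (i j : Fin N)
    (h : ‖comp X i - comp X j‖ = ‖X i - X j‖) (k : Fin d) :
    |comp X i k - comp X j k| = |X i k - X j k| := by
  by_contra hne
  have hlt : |comp X i k - comp X j k| < |X i k - X j k| :=
    lt_of_le_of_ne (comp_coord X i j k).1 hne
  have h2 : ‖comp X i - comp X j‖ ^ 2 < ‖X i - X j‖ ^ 2 := by
    rw [comp_norm_sq, norm_sq_sub]
    refine Finset.sum_lt_sum (fun l _ => pow_le_pow_left₀ (abs_nonneg _) (comp_coord X i j l).1 2)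
      ⟨k, Finset.mem_univ k, pow_lt_pow_left₀ hlt (abs_nonneg _) two_ne_zero⟩
  rw [h] at h2
  exact lt_irrefl _ h2

variable {w : EuclideanSpace ℝ (Fin d) → ℝ≥0∞} {g : ℝ → ℝ≥0∞}

lemma w_comp_le (hwg : ∀ x, w x = g ‖x‖) (hg : StrictMonoOn g (Ici 1))
    {N : ℕ} (X : Fin N → EuclideanSpace ℝ (Fin d)) (i j : Fin N) :
    w (comp X i - comp X j) ≤ w (X i - X j) := by
  rw [hwg, hwg]
  rcases comp_norm_dich X i j with h | h
  · rw [h]
  · exact hg.monotoneOn h (h.trans (comp_norm_le X i j)) (comp_norm_le X i j)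

lemma D_comp_le (hwg : ∀ x, w x = g ‖x‖) (hg : StrictMonoOn g (Ici 1))
    {N : ℕ} (X : Fin N → EuclideanSpace ℝ (Fin d)) : D w (comp X) ≤ D w X := by
  unfold D
  refine Finset.sum_le_sum fun i _ => Finset.sum_le_sum fun j _ => ?_
  split_ifs
  · exact le_rfl
  · exact w_comp_le hwg hg X i j

lemma rigid (hwg : ∀ x, w x = g ‖x‖) (hg : StrictMonoOn g (Ici 1))
    {N : ℕ} {X : Fin N → EuclideanSpace ℝ (Fin d)} 
    (hX : ∀ Y : Fin N → EuclideanSpace ℝ (Fin d), D w X ≤ D w Y)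
    (hfin : D w X ≠ ∞) (i j : Fin N) : ‖comp X i - comp X j‖ = ‖X i - X j‖ := by
  by_contra hne
  have hij : i ≠ j := by
    rintro rfl
    simp at hne
  have hlt : ‖comp X i - comp X j‖ < ‖X i - X j‖ := lt_of_le_of_ne (comp_norm_le X i j) hne
  have h1 : 1 ≤ ‖comp X i - comp X j‖ := (comp_norm_dich X i j).resolve_left hne
  have hw : w (comp X i - comp X j) < w (X i - X j) := by
    rw [hwg, hwg]
    exact hg h1 (h1.trans hlt.le) hlt
  have : D w (comp X) < D w X := by
    have hle : ∀ a b : Fin N, (if a = b then 0 else w (comp X a - comp X b))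
        ≤ (if a = b then 0 else w (X a - X b)) := by
      intro a b
      split_ifs
      · exact le_rfl
      · exact w_comp_le hwg hg X a b
    have hterm : ∀ a, (∑ b, if a = b then 0 else w (X a - X b)) ≠ ∞ := by
      intro a
      refine ne_top_of_le_ne_top hfin ?_
      unfold D
      exact Finset.single_le_sum (f := fun a => ∑ b, if a = b then 0 else w (X a - X b))
        (fun _ _ => zero_le) (Finset.mem_univ a)
    unfold D
    refine sum_lt_of_le_of_lt (fun a _ => Finset.sum_le_sum fun b _ => hle a b) hfin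
      (Finset.mem_univ i) ?_
    refine sum_lt_of_le_of_lt (fun b _ => hle i b) (hterm i) (Finset.mem_univ j) ?_
    simpa [hij] using hw
  exact absurd (hX (comp X)) (not_le.2 this)

end euclid

end Pool.Agent.R221.PL
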