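import Pool.Agent.R221.PL.Box

open MeasureTheory Filter Topology Set
open scoped ENNReal NNReal

namespace Pool.Agent.R221.PL

variable {d : ℕ}

/-- Confinement at infinity with unbounded growth. -/
def CaseA (w : EuclideanSpace ℝ (Fin d) → ℝ≥0∞) : Prop :=
  (∀ M : ℝ≥0, ∃ R : ℝ, 0 ≤ R ∧ ∀ x, R < ‖x‖ → (M : ℝ≥0∞) ≤ w x) ∧
  ∃ ρ : Measure (EuclideanSpace ℝ (Fin d)), IsProbabilityMeasure ρ ∧ C w ρ ≠ ∞

/-- Finite limit at infinity, and a measure seeing less than that limit. -/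
def CaseB (w : EuclideanSpace ℝ (Fin d) → ℝ≥0∞) : Prop :=
  ∃ K : ℝ, 0 < K ∧
    (∀ c : ℝ, 0 < c → ∃ R : ℝ, 0 ≤ R ∧ ∀ x, R < ‖x‖ → ENNReal.ofReal (K - c) ≤ w x) ∧
    ∃ ν : Measure (EuclideanSpace ℝ (Fin d)), IsProbabilityMeasure ν ∧
      (∀ y, ∫⁻ x, w (x - y) ∂ν ≤ ENNReal.ofReal K) ∧
      (∀ R : ℝ, ∃ c : ℝ, 0 < c ∧ c ≤ K ∧ ∀ y, ‖y‖ ≤ R →
        ∫⁻ x, w (x - y) ∂ν ≤ ENNReal.ofReal (K - c)) ∧
      (∃ c : ℝ, 0 < c ∧ c ≤ K ∧ C w ν ≤ ENNReal.ofReal (K - c))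

variable {w : EuclideanSpace ℝ (Fin d) → ℝ≥0∞} {g : ℝ → ℝ≥0∞}

lemma continuous_D (hwc : Continuous w) (N : ℕ) :
    Continuous (fun X : Fin N → EuclideanSpace ℝ (Fin d) => D w X) := by
  unfold D
  refine continuous_finsetSum _ fun i _ => continuous_finsetSum _ fun j _ => ?_
  split_ifs
  · exact continuous_const
  · exact hwc.comp ((continuous_apply i).sub (continuous_apply j))

theorem exists_minimizer (hwg : ∀ x, w x = g ‖x‖) (hg : StrictMonoOn g (Ici 1))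
    (hwc : Continuous w) (N : ℕ) :
    ∃ X : Fin N → EuclideanSpace ℝ (Fin d), ∀ Y : Fin N → EuclideanSpace ℝ (Fin d),
      D w X ≤ D w Y := by
  set r := Real.sqrt (d * (N : ℝ) ^ 2) with hr
  have hcomp : ∀ Y : Fin N → EuclideanSpace ℝ (Fin d),
      comp Y ∈ univ.pi fun _ : Fin N => Metric.closedBall (0 : EuclideanSpace ℝ (Fin d)) r := by
    intro Y i _
    rw [mem_closedBall_zero_iff, EuclideanSpace.norm_eq]
    refine Real.sqrt_le_sqrt ?_
    calc ∑ k, ‖comp Y i k‖ ^ 2 ≤ ∑ k : Fin d, (N : ℝ) ^ 2 := by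
          refine Finset.sum_le_sum fun k _ => ?_
          refine pow_le_pow_left₀ (norm_nonneg _) ?_ 2
          rw [comp_apply, Real.norm_eq_abs, abs_of_nonneg (F_nonneg _ _)]
          exact (F_le_vol _ _).trans (vol_toReal_le _)
      _ = d * (N : ℝ) ^ 2 := by simp
  have hK : IsCompact (univ.pi fun _ : Fin N =>
      Metric.closedBall (0 : EuclideanSpace ℝ (Fin d)) r) :=
    isCompact_univ_pi fun _ => isCompact_closedBall _ _
  obtain ⟨X, -, hX⟩ := hK.exists_isMinOn ⟨comp 0, hcomp 0⟩ (continuous_D hwc N).continuousOn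
  refine ⟨X, fun Y => ?_⟩
  exact (hX (hcomp Y)).trans (D_comp_le hwg hg Y)

/-- Empirical probability measure of a translated configuration. -/
noncomputable def empP {N : ℕ} (hN : N ≠ 0) (X : Fin N → EuclideanSpace ℝ (Fin d))
    (a : EuclideanSpace ℝ (Fin d)) : ProbabilityMeasure (EuclideanSpace ℝ (Fin d)) :=
  ⟨emp (fun i => X i - a), isProb_emp hN _⟩

theorem abstract_conv (hwg : ∀ x, w x = g ‖x‖) (hg : StrictMonoOn g (Ici 1))
    (hwc : Continuous w) (hcase : CaseA w ∨ CaseB w)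
    {N : ℕ → ℕ} (hN2 : ∀ k, 2 ≤ N k) (hN : Tendsto N atTop atTop)
    (X : ∀ k, Fin (N k) → EuclideanSpace ℝ (Fin d))
    (hX : ∀ k, ∀ Y : Fin (N k) → EuclideanSpace ℝ (Fin d), D w (X k) ≤ D w Y) :
    ∃ a : ℕ → EuclideanSpace ℝ (Fin d), ∀ φ : ℕ → ℕ, StrictMono φ →
      ∃ ψ : ℕ → ℕ, StrictMono ψ ∧ ∃ μ : ProbabilityMeasure (EuclideanSpace ℝ (Fin d)),
        (∀ ρ : Measure (EuclideanSpace ℝ (Fin d)), IsProbabilityMeasure ρ →
          C w (μ : Measure (EuclideanSpace ℝ (Fin d))) ≤ C w ρ) ∧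
        Tendsto (fun n => empP (by have := hN2 (φ (ψ n)); omega : N (φ (ψ n)) ≠ 0)
          (X (φ (ψ n))) (a (φ (ψ n)))) atTop (𝓝 μ) := by
  have hN0 : ∀ k, N k ≠ 0 := fun k => by have := hN2 k; omega
  have hs : ∀ x, w (-x) = w x := fun x => by rw [hwg, hwg, norm_neg]
  -- tightness
  have htight : ∃ a : ℕ → EuclideanSpace ℝ (Fin d), ∀ ε : ℝ≥0∞, 0 < ε → ∃ R : ℝ, ∀ k,
      ((empP (hN0 k) (X k) (a k) : ProbabilityMeasure (EuclideanSpace ℝ (Fin d))) :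
        Measure (EuclideanSpace ℝ (Fin d))) {x | R < ‖x‖} ≤ ε := by
    rcases hcase with ⟨hA, ρ, hρ, hρfin⟩ | ⟨K, hK, hfar, ν, hν, h1, h2, h3⟩
    · have hex : ∀ k, ∃ i, V w (X k) i (X k i) ≤ ((N k - 1 : ℕ) : ℝ≥0∞) * C w ρ := fun k =>
        exists_V_le hwc.measurable (hN0 k) (hX k) ρ
      choose i hi using hex
      refine ⟨fun k => X k (i k), fun ε hε => ?_⟩
      obtain ⟨M, hM0, hM⟩ : ∃ M : ℝ≥0, M ≠ 0 ∧ C w ρ / M ≤ ε := by
        by_cases hεt : ε = ∞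
        · exact ⟨1, one_ne_zero, by rw [hεt]; exact le_top⟩
        · refine ⟨(C w ρ / ε).toNNReal + 1, by positivity, ?_⟩
          have hfin : C w ρ / ε ≠ ∞ := ENNReal.div_ne_top hρfin hε.ne'
          rw [ENNReal.div_le_iff (by positivity) ENNReal.coe_ne_top]
          push_cast
          rw [ENNReal.coe_toNNReal hfin, mul_add, ENNReal.mul_div_cancel hε.ne' hεt]
          exact le_self_add
      obtain ⟨R, hR0, hR⟩ := hA M
      refine ⟨R, fun k => ?_⟩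
      have h4 := emp_far_le (X k) (i k) hR0 hR hs
      have h5 : (N k : ℝ≥0∞)⁻¹ * V w (X k) (i k) (X k (i k)) ≤ C w ρ := by
        calc (N k : ℝ≥0∞)⁻¹ * V w (X k) (i k) (X k (i k))
            ≤ (N k : ℝ≥0∞)⁻¹ * (((N k - 1 : ℕ) : ℝ≥0∞) * C w ρ) := by gcongr; exact hi k
          _ ≤ (N k : ℝ≥0∞)⁻¹ * ((N k : ℝ≥0∞) * C w ρ) := by
              gcongr
              exact Nat.sub_le _ _
          _ = C w ρ := by
              rw [← mul_assoc, ENNReal.inv_mul_cancel (by exact_mod_cast hN0 k)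
                (ENNReal.natCast_ne_top _), one_mul]
      have h6 := h4.trans h5
      refine le_trans ?_ hM
      rw [ENNReal.le_div_iff_mul_le (Or.inl (by exact_mod_cast hM0))
        (Or.inl ENNReal.coe_ne_top), mul_comm]
      exact h6
    · obtain ⟨B, hB⟩ := box_bound hwg hg hwc.measurable hK hfar ν h1 h2 h3
      refine ⟨fun k => X k ⟨0, Nat.pos_of_ne_zero (hN0 k)⟩, fun ε _ => ⟨B, fun k => ?_⟩⟩
      have hmeas : MeasurableSet {x : EuclideanSpace ℝ (Fin d) | B < ‖x‖} :=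
        measurableSet_lt measurable_const measurable_norm
      have h0 : ((empP (hN0 k) (X k) (X k ⟨0, Nat.pos_of_ne_zero (hN0 k)⟩) :
          ProbabilityMeasure (EuclideanSpace ℝ (Fin d))) :
          Measure (EuclideanSpace ℝ (Fin d))) {x | B < ‖x‖} = 0 := by
        change emp (fun i => X k i - X k ⟨0, Nat.pos_of_ne_zero (hN0 k)⟩) {x | B < ‖x‖} = 0
        rw [← lintegral_indicator_one hmeas, lintegral_emp]
        rw [Finset.sum_eq_zero, mul_zero]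
        intro j _
        rw [indicator_of_notMem]
        exact not_lt.2 (hB (N k) (hN2 k) (X k) (hX k) j _)
      rw [h0]
      exact zero_le
  obtain ⟨a, ha⟩ := htight
  refine ⟨a, fun φ hφ => ?_⟩
  obtain ⟨ψ, hψ, μ, hμ⟩ := subseq_of_tight (P := fun k => empP (hN0 k) (X k) (a k)) ha φ
  refine ⟨ψ, hψ, μ, fun ρ hρ => ?_, hμ⟩
  refine limit_min hwc (N := fun n => N (φ (ψ n)))
    (hN.comp (hφ.tendsto_atTop.comp hψ.tendsto_atTop)) (fun n => hN0 _)
    (X := fun n i => X (φ (ψ n)) i - a (φ (ψ n))) ?_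
    (P := fun n => empP (hN0 (φ (ψ n))) (X (φ (ψ n))) (a (φ (ψ n)))) (fun n => rfl) hμ ρ
  intro n Y
  rw [D_translate]
  exact hX _ Y

end Pool.Agent.R221.PL
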