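import Pool.Agent.R221.PL.Basic

open MeasureTheory Filter Topology Set
open scoped ENNReal NNReal BoundedContinuousFunction

namespace Pool.Agent.R221.PL

section generic

variable {E : Type*} [NormedAddCommGroup E] [MeasurableSpace E] [BorelSpace E]

/-- Empirical measure. -/
noncomputable def emp {N : ℕ} (X : Fin N → E) : Measure E :=
  (N : ℝ≥0∞)⁻¹ • ∑ i, Measure.dirac (X i)

lemma lintegral_emp {N : ℕ} (X : Fin N → E) (f : E → ℝ≥0∞) :
    ∫⁻ x, f x ∂(emp X) = (N : ℝ≥0∞)⁻¹ * ∑ i, f (X i) := by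
  unfold emp
  rw [lintegral_smul_measure, lintegral_finsetSum_measure, smul_eq_mul]
  congr 1
  exact Finset.sum_congr rfl fun i _ => lintegral_dirac _ _

lemma emp_univ {N : ℕ} (hN : N ≠ 0) (X : Fin N → E) : emp X univ = 1 := by
  have h := lintegral_emp X (fun _ => (1 : ℝ≥0∞))
  simp only [lintegral_const, one_mul, Finset.sum_const, Finset.card_univ, Fintype.card_fin,
    nsmul_eq_mul, mul_one] at h
  rw [h]
  exact ENNReal.inv_mul_cancel (by exact_mod_cast hN) (ENNReal.natCast_ne_top N)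

lemma isProb_emp {N : ℕ} (hN : N ≠ 0) (X : Fin N → E) : IsProbabilityMeasure (emp X) :=
  ⟨emp_univ hN X⟩

lemma C_trunc_emp_le (w : E → ℝ≥0∞) {N : ℕ} (hN : N ≠ 0) (X : Fin N → E) (T : ℝ≥0∞) :
    C (fun x => min (w x) T) (emp X) ≤ (N : ℝ≥0∞)⁻¹ * ((N : ℝ≥0∞)⁻¹ * (D w X + N * T)) := by
  unfold C
  rw [lintegral_emp]
  simp_rw [lintegral_emp]
  gcongr
  rw [← Finset.mul_sum]
  gcongr
  unfold D
  have h1 : (N : ℝ≥0∞) * T = ∑ i : Fin N, T := by simp
  rw [h1, ← Finset.sum_add_distrib]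
  refine Finset.sum_le_sum fun i _ => ?_
  have h2 : T = ∑ j : Fin N, if i = j then T else 0 := by simp
  conv_rhs => rw [h2]
  rw [← Finset.sum_add_distrib]
  refine Finset.sum_le_sum fun j _ => ?_
  split_ifs with h
  · rw [zero_add]; exact min_le_right _ _
  · rw [add_zero]; exact min_le_left _ _

lemma D_translate (w : E → ℝ≥0∞) {N : ℕ} (X : Fin N → E) (a : E) :
    D w (fun i => X i - a) = D w X := by
  unfold D
  refine Finset.sum_congr rfl fun i _ => Finset.sum_congr rfl fun j _ => ?_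
  rw [sub_sub_sub_cancel_right]

lemma tendsto_C_trunc [SecondCountableTopology E] {w : E → ℝ≥0∞} (hw : Continuous w) (T : ℝ≥0)
    {P : ℕ → ProbabilityMeasure E} {μ : ProbabilityMeasure E} (h : Tendsto P atTop (𝓝 μ)) :
    Tendsto (fun k => C (fun x => min (w x) T) (P k : Measure E)) atTop
      (𝓝 (C (fun x => min (w x) T) (μ : Measure E))) := by
  have hfin : ∀ p : E × E, min (w (p.1 - p.2)) (T : ℝ≥0∞) ≠ ∞ := fun p =>
    ne_top_of_le_ne_top ENNReal.coe_ne_top (min_le_right _ _)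
  have hcont : Continuous (fun p : E × E => (min (w (p.1 - p.2)) (T : ℝ≥0∞)).toNNReal) := by
    rw [continuous_iff_continuousAt]
    intro p
    have h1 : ContinuousAt (fun p : E × E => min (w (p.1 - p.2)) (T : ℝ≥0∞)) p :=
      ((hw.comp (continuous_fst.sub continuous_snd)).min continuous_const).continuousAt
    exact (ENNReal.tendsto_toNNReal (hfin p)).comp h1
  let f : (E × E) →ᵇ ℝ≥0 := BoundedContinuousFunction.mkOfBound
    ⟨fun p : E × E => (min (w (p.1 - p.2)) (T : ℝ≥0∞)).toNNReal, hcont⟩ T (by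
      intro p q
      have hb : ∀ p : E × E, (min (w (p.1 - p.2)) (T : ℝ≥0∞)).toNNReal ≤ T := fun p => by
        have := ENNReal.toNNReal_mono ENNReal.coe_ne_top
          (min_le_right (w (p.1 - p.2)) (T : ℝ≥0∞))
        simpa using this
      have hp := hb p
      have hq := hb q
      rw [NNReal.dist_eq]
      simp only [ContinuousMap.coe_mk]
      have hp' : ((min (w (p.1 - p.2)) (T : ℝ≥0∞)).toNNReal : ℝ) ≤ T := by exact_mod_cast hp
      have hq' : ((min (w (q.1 - q.2)) (T : ℝ≥0∞)).toNNReal : ℝ) ≤ T := by exact_mod_cast hq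
      rw [abs_le]
      constructor
      · have := ((min (w (p.1 - p.2)) (T : ℝ≥0∞)).toNNReal).coe_nonneg
        linarith
      · have := ((min (w (q.1 - q.2)) (T : ℝ≥0∞)).toNNReal).coe_nonneg
        linarith)
  have hprod : Tendsto (fun k => (P k).prod (P k)) atTop (𝓝 (μ.prod μ)) := by
    have hc := (ProbabilityMeasure.continuous_prod (α := E) (β := E)).tendsto (μ, μ)
    exact hc.comp (h.prodMk_nhds h)
  have h2 := (ProbabilityMeasure.tendsto_iff_forall_lintegral_tendsto.1 hprod) f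
  have key : ∀ Q : ProbabilityMeasure E, ∫⁻ p, (f p : ℝ≥0∞) ∂((Q.prod Q : ProbabilityMeasure (E × E)) : Measure (E × E))
      = C (fun x => min (w x) T) (Q : Measure E) := by
    intro Q
    have e1 : ∀ p : E × E, (f p : ℝ≥0∞) = min (w (p.1 - p.2)) (T : ℝ≥0∞) := fun p =>
      ENNReal.coe_toNNReal (hfin p)
    simp_rw [e1]
    rw [ProbabilityMeasure.toMeasure_prod, lintegral_prod]
    · rfl
    · exact ((hw.comp (continuous_fst.sub continuous_snd)).min continuous_const).measurable.aemeasurable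
  simp_rw [key] at h2
  exact h2

lemma limit_min [SecondCountableTopology E] {w : E → ℝ≥0∞} (hw : Continuous w)
    {N : ℕ → ℕ} (hN : Tendsto N atTop atTop) (hN0 : ∀ k, N k ≠ 0)
    {X : ∀ k, Fin (N k) → E} (hX : ∀ k, ∀ Y : Fin (N k) → E, D w (X k) ≤ D w Y)
    {P : ℕ → ProbabilityMeasure E} (hP : ∀ k, (P k : Measure E) = emp (X k))
    {μ : ProbabilityMeasure E} (h : Tendsto P atTop (𝓝 μ))
    (ρ : Measure E) [IsProbabilityMeasure ρ] : C w (μ : Measure E) ≤ C w ρ := by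
  have hT : ∀ T : ℕ, C (fun x => min (w x) ((T : ℝ≥0) : ℝ≥0∞)) (μ : Measure E) ≤ C w ρ := by
    intro T
    by_cases hρ : C w ρ = ∞
    · rw [hρ]; exact le_top
    have hb : ∀ k, C (fun x => min (w x) ((T : ℝ≥0) : ℝ≥0∞)) (P k : Measure E)
        ≤ C w ρ + (N k : ℝ≥0∞)⁻¹ * T := by
      intro k
      rw [hP k]
      refine (C_trunc_emp_le w (hN0 k) (X k) _).trans ?_
      obtain ⟨Y, hY⟩ := exists_D_le hw.measurable (N k) ρ
      have h1 : D w (X k) ≤ (N k : ℝ≥0∞) * (N k : ℝ≥0∞) * C w ρ := by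
        refine (hX k Y).trans (hY.trans ?_)
        gcongr
        exact_mod_cast Nat.mul_le_mul_left (N k) (Nat.sub_le _ _)
      have hne : (N k : ℝ≥0∞) ≠ 0 := by exact_mod_cast hN0 k
      have hnt : (N k : ℝ≥0∞) ≠ ∞ := ENNReal.natCast_ne_top _
      calc (N k : ℝ≥0∞)⁻¹ * ((N k : ℝ≥0∞)⁻¹ * (D w (X k) + N k * ((T : ℝ≥0) : ℝ≥0∞)))
          ≤ (N k : ℝ≥0∞)⁻¹ * ((N k : ℝ≥0∞)⁻¹ * ((N k : ℝ≥0∞) * (N k : ℝ≥0∞) * C w ρ
              + N k * ((T : ℝ≥0) : ℝ≥0∞))) := by gcongr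
        _ = (N k : ℝ≥0∞)⁻¹ * (N k : ℝ≥0∞) * ((N k : ℝ≥0∞)⁻¹ * (N k : ℝ≥0∞)) * C w ρ
            + (N k : ℝ≥0∞)⁻¹ * ((N k : ℝ≥0∞)⁻¹ * (N k : ℝ≥0∞)) * ((T : ℝ≥0) : ℝ≥0∞) := by ring
        _ = C w ρ + (N k : ℝ≥0∞)⁻¹ * T := by
            rw [ENNReal.inv_mul_cancel hne hnt]; simp
    have hlim := tendsto_C_trunc hw (T : ℝ≥0) h
    have hlim2 : Tendsto (fun k => C w ρ + (N k : ℝ≥0∞)⁻¹ * T) atTop (𝓝 (C w ρ + 0 * T)) := by
      refine Tendsto.add tendsto_const_nhds ?_
      refine ENNReal.Tendsto.mul_const ?_ (Or.inr (ENNReal.natCast_ne_top T))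
      exact ENNReal.tendsto_inv_nat_nhds_zero.comp hN
    have := le_of_tendsto_of_tendsto' hlim hlim2 hb
    simpa using this
  have hmono : C w (μ : Measure E) = ⨆ T : ℕ, C (fun x => min (w x) ((T : ℝ≥0) : ℝ≥0∞)) (μ : Measure E) := by
    unfold C
    have hmeas : ∀ T : ℕ, Measurable (fun p : E × E => min (w (p.1 - p.2)) ((T : ℝ≥0) : ℝ≥0∞)) := fun T =>
      ((hw.comp (continuous_fst.sub continuous_snd)).min continuous_const).measurable
    rw [← lintegral_iSup]
    · refine lintegral_congr fun x => ?_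
      rw [← lintegral_iSup]
      · refine lintegral_congr fun y => ?_
        have : (⨆ T : ℕ, min (w (x - y)) ((T : ℝ≥0) : ℝ≥0∞)) = min (w (x - y)) (⨆ T : ℕ, ((T : ℝ≥0) : ℝ≥0∞)) :=
          (inf_iSup_eq _ _).symm
        rw [this]
        have h3 : (⨆ T : ℕ, ((T : ℝ≥0) : ℝ≥0∞)) = ∞ := by
          have := ENNReal.iSup_natCast
          simpa using this
        rw [h3, min_eq_left le_top]
      · intro T
        exact (hmeas T).comp (measurable_const.prodMk measurable_id)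
      · intro S T hST y
        simp only
        gcongr
    · intro T
      exact (hmeas T).lintegral_prod_right'
    · intro S T hST x
      simp only
      gcongr
  rw [hmono]
  exact iSup_le hT

end generic

end Pool.Agent.R221.PL
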