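import Pool.Agent.R221.PL.Conv

open MeasureTheory Filter Topology Set
open scoped ENNReal NNReal

namespace Pool.Agent.R221.PL

/-- `r ^ γ / γ`, read as `log r` if `γ = 0`. -/
noncomputable def pw (γ r : ℝ) : ℝ := if γ = 0 then Real.log r else r ^ γ / γ

/-- Radial profile of the interaction potential (for `r > 0`). -/
noncomputable def prof (α β r : ℝ) : ℝ := -pw α r + pw β r

lemma hasDerivAt_pw (γ : ℝ) {r : ℝ} (hr : 0 < r) : HasDerivAt (pw γ) (r ^ (γ - 1)) r := by
  unfold pw
  by_cases h : γ = 0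
  · subst h
    simp only [if_true]
    have h1 := Real.hasDerivAt_log hr.ne'
    have h2 : r ^ ((0 : ℝ) - 1) = r⁻¹ := by rw [zero_sub, Real.rpow_neg_one]
    rw [h2]; exact h1
  · simp only [h, if_false]
    have h1 := (Real.hasDerivAt_rpow_const (x := r) (p := γ) (Or.inl hr.ne')).div_const γ
    have h2 : γ * r ^ (γ - 1) / γ = r ^ (γ - 1) := by field_simp
    rwa [h2] at h1

lemma hasDerivAt_prof (α β : ℝ) {r : ℝ} (hr : 0 < r) :
    HasDerivAt (prof α β) (-r ^ (α - 1) + r ^ (β - 1)) r :=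
  (hasDerivAt_pw α hr).neg.add (hasDerivAt_pw β hr)

lemma continuousOn_prof (α β : ℝ) : ContinuousOn (prof α β) (Ioi 0) := fun _ hr =>
  (hasDerivAt_prof α β hr).continuousAt.continuousWithinAt

lemma strictMonoOn_prof {α β : ℝ} (h : α < β) : StrictMonoOn (prof α β) (Ici 1) := by
  refine strictMonoOn_of_deriv_pos (convex_Ici 1)
    ((continuousOn_prof α β).mono fun x (hx : (1 : ℝ) ≤ x) =>
      (lt_of_lt_of_le one_pos hx : (0 : ℝ) < x)) ?_
  intro x hx
  rw [interior_Ici] at hx
  have hx1 : 1 < x := hx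
  rw [(hasDerivAt_prof α β (by linarith)).deriv]
  have := Real.rpow_lt_rpow_of_exponent_lt hx1 (by linarith : α - 1 < β - 1)
  linarith

lemma antitoneOn_prof {α β : ℝ} (h : α < β) : AntitoneOn (prof α β) (Ioc 0 1) := by
  refine antitoneOn_of_deriv_nonpos (convex_Ioc 0 1)
    ((continuousOn_prof α β).mono fun x hx => hx.1) ?_ ?_
  · intro x hx
    rw [interior_Ioc] at hx
    exact (hasDerivAt_prof α β hx.1).differentiableAt.differentiableWithinAt
  · intro x hx
    rw [interior_Ioc] at hx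
    rw [(hasDerivAt_prof α β hx.1).deriv]
    have := Real.rpow_lt_rpow_of_exponent_gt hx.1 hx.2 (by linarith : α - 1 < β - 1)
    linarith

lemma prof_one_le {α β : ℝ} (h : α < β) {r : ℝ} (hr : 0 < r) : prof α β 1 ≤ prof α β r := by
  rcases le_total r 1 with h1 | h1
  · exact antitoneOn_prof h ⟨hr, h1⟩ ⟨one_pos, le_rfl⟩ h1
  · exact (strictMonoOn_prof h).monotoneOn (mem_Ici.2 le_rfl) h1 h1

lemma exists_small {δ : ℝ} (hδ : 0 < δ) : ∃ r0 : ℝ, 0 < r0 ∧ r0 ≤ 1 ∧
    ∀ r, 0 < r → r ≤ r0 → r ^ δ ≤ 1 / 2 := by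
  refine ⟨(1 / 2) ^ (1 / δ), by positivity, ?_, ?_⟩
  · exact Real.rpow_le_one (by norm_num) (by norm_num) (by positivity)
  · intro r hr hr0
    calc r ^ δ ≤ ((1 / 2 : ℝ) ^ (1 / δ)) ^ δ := Real.rpow_le_rpow hr.le hr0 hδ.le
      _ = 1 / 2 := by
        rw [← Real.rpow_mul (by norm_num)]
        rw [one_div_mul_cancel hδ.ne', Real.rpow_one]

lemma tendsto_prof_zero {α β : ℝ} (hα : α ≤ 0) (h : α < β) :
    Tendsto (prof α β) (𝓝[>] 0) atTop := by
  obtain ⟨r0, hr0, hr01, hsm⟩ := exists_small (sub_pos.2 h)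
  -- `prof + (1/2) log` is antitone on `(0, r0]`
  have hanti : AntitoneOn (fun r => prof α β r + 1 / 2 * Real.log r) (Ioc 0 r0) := by
    have hd : ∀ x, 0 < x → HasDerivAt (fun r => prof α β r + 1 / 2 * Real.log r)
        (-x ^ (α - 1) + x ^ (β - 1) + 1 / 2 * x⁻¹) x := fun x hx =>
      (hasDerivAt_prof α β hx).add ((Real.hasDerivAt_log hx.ne').const_mul _)
    refine antitoneOn_of_deriv_nonpos (convex_Ioc 0 r0)
      (fun x hx => (hd x hx.1).continuousAt.continuousWithinAt) ?_ ?_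
    · intro x hx
      rw [interior_Ioc] at hx
      exact (hd x hx.1).differentiableAt.differentiableWithinAt
    · intro x hx
      rw [interior_Ioc] at hx
      rw [(hd x hx.1).deriv]
      have h1 : x ^ (β - 1) = x ^ (α - 1) * x ^ (β - α) := by
        rw [← Real.rpow_add hx.1]; congr 1; ring
      have h2 := hsm x hx.1 hx.2.le
      have h3 : 0 < x ^ (α - 1) := Real.rpow_pos_of_pos hx.1 _
      have h4 : x⁻¹ ≤ x ^ (α - 1) := by
        rw [← Real.rpow_neg_one]
        exact Real.rpow_le_rpow_of_exponent_ge hx.1 (hx.2.le.trans hr01) (by linarith)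
      rw [h1]
      nlinarith
  have hlow : ∀ r ∈ Ioc (0 : ℝ) r0, (prof α β r0 + 1 / 2 * Real.log r0) - 1 / 2 * Real.log r
      ≤ prof α β r := by
    intro r hr
    have := hanti hr ⟨hr0, le_rfl⟩ hr.2
    simp only at this
    linarith
  have hlog : Tendsto (fun r : ℝ => (prof α β r0 + 1 / 2 * Real.log r0) - 1 / 2 * Real.log r)
      (𝓝[>] 0) atTop := by
    have h1 : Tendsto (fun r : ℝ => -(1 / 2 * Real.log r)) (𝓝[>] 0) atTop := by
      refine tendsto_neg_atBot_atTop.comp ?_
      exact (Real.tendsto_log_nhdsGT_zero).const_mul_atBot (by norm_num)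
    simpa [sub_eq_add_neg] using tendsto_atTop_add_const_left _ _ h1
  refine tendsto_atTop_mono' _ ?_ hlog
  filter_upwards [Ioc_mem_nhdsGT hr0] with r hr using hlow r hr

lemma tendsto_prof_atTop {α β : ℝ} (hβ : 0 ≤ β) (h : α < β) :
    Tendsto (prof α β) atTop atTop := by
  obtain ⟨r0, hr0, hr01, hsm⟩ := exists_small (sub_pos.2 h)
  have hr1 : (1 : ℝ) ≤ r0⁻¹ := (one_le_inv₀ hr0).2 hr01
  have hmono : MonotoneOn (fun r => prof α β r - 1 / 2 * Real.log r) (Ici r0⁻¹) := by
    have hd : ∀ x, 0 < x → HasDerivAt (fun r => prof α β r - 1 / 2 * Real.log r)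
        (-x ^ (α - 1) + x ^ (β - 1) - 1 / 2 * x⁻¹) x := fun x hx =>
      (hasDerivAt_prof α β hx).sub ((Real.hasDerivAt_log hx.ne').const_mul _)
    refine monotoneOn_of_deriv_nonneg (convex_Ici _)
      (fun x hx => (hd x (lt_of_lt_of_le (by positivity) hx)).continuousAt.continuousWithinAt) ?_ ?_
    · intro x hx
      rw [interior_Ici] at hx
      exact (hd x (lt_trans (by positivity) hx)).differentiableAt.differentiableWithinAt
    · intro x hx
      rw [interior_Ici] at hx
      have hx0 : 0 < x := lt_trans (by positivity) hx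
      have hx1 : 1 ≤ x := hr1.trans (le_of_lt hx)
      rw [(hd x hx0).deriv]
      have h1 : x ^ (α - 1) = x ^ (β - 1) * (x⁻¹) ^ (β - α) := by
        rw [Real.inv_rpow hx0.le, ← Real.rpow_neg hx0.le, ← Real.rpow_add hx0]; congr 1; ring
      have h2 := hsm x⁻¹ (by positivity) (by
        rw [inv_le_comm₀ hx0 hr0]; exact le_of_lt hx)
      have h3 : 0 < x ^ (β - 1) := Real.rpow_pos_of_pos hx0 _
      have h4 : x⁻¹ ≤ x ^ (β - 1) := by
        rw [← Real.rpow_neg_one]
        exact Real.rpow_le_rpow_of_exponent_le hx1 (by linarith)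
      rw [h1]
      nlinarith
  have hlow : ∀ r ∈ Ici r0⁻¹, (prof α β r0⁻¹ - 1 / 2 * Real.log r0⁻¹) + 1 / 2 * Real.log r
      ≤ prof α β r := by
    intro r hr
    have := hmono (mem_Ici.2 le_rfl) hr hr
    simp only at this
    linarith
  have hlog : Tendsto (fun r : ℝ => (prof α β r0⁻¹ - 1 / 2 * Real.log r0⁻¹) + 1 / 2 * Real.log r)
      atTop atTop :=
    tendsto_atTop_add_const_left _ _ (Real.tendsto_log_atTop.const_mul_atTop (by norm_num))
  refine tendsto_atTop_mono' _ ?_ hlog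
  filter_upwards [Ici_mem_atTop r0⁻¹] with r hr using hlow r hr

/-- Shifted radial profile, with values in `[0, ∞]`. -/
noncomputable def gfun (α β r : ℝ) : ℝ≥0∞ :=
  if r ≤ 0 then (if α ≤ 0 then ∞ else ENNReal.ofReal (0 - prof α β 1))
  else ENNReal.ofReal (prof α β r - prof α β 1)

lemma gfun_pos (α β : ℝ) {r : ℝ} (hr : 0 < r) :
    gfun α β r = ENNReal.ofReal (prof α β r - prof α β 1) := by
  unfold gfun; rw [if_neg (not_le.2 hr)]

lemma strictMonoOn_gfun {α β : ℝ} (h : α < β) : StrictMonoOn (gfun α β) (Ici 1) := by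
  intro x hx y hy hxy
  have hx' : (1 : ℝ) ≤ x := hx
  have hy' : (1 : ℝ) ≤ y := hy
  rw [gfun_pos α β (by linarith), gfun_pos α β (by linarith)]
  have h1 := strictMonoOn_prof h hx hy hxy
  have h2 := prof_one_le h (lt_of_lt_of_le one_pos hx')
  rw [ENNReal.ofReal_lt_ofReal_iff (by linarith)]
  linarith

lemma tendsto_pw_zero {γ : ℝ} (hγ : 0 < γ) : Tendsto (pw γ) (𝓝[>] 0) (𝓝 0) := by
  have h1 : Tendsto (fun r : ℝ => r ^ γ / γ) (𝓝[>] 0) (𝓝 (0 ^ γ / γ)) :=
    ((Real.continuousAt_rpow_const 0 γ (Or.inr hγ.le)).tendsto.div_const γ).mono_left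
      nhdsWithin_le_nhds
  rw [Real.zero_rpow hγ.ne', zero_div] at h1
  refine h1.congr fun r => ?_
  unfold pw
  rw [if_neg hγ.ne']

lemma continuousOn_gfun {α β : ℝ} (h : α < β) : ContinuousOn (gfun α β) (Ici 0) := by
  intro r hr
  rcases eq_or_lt_of_le (show (0 : ℝ) ≤ r from hr) with h0 | h0
  · subst h0
    rw [← continuousWithinAt_Ioi_iff_Ici]
    have heq : (fun r => ENNReal.ofReal (prof α β r - prof α β 1)) =ᶠ[𝓝[>] 0] gfun α β := by
      filter_upwards [self_mem_nhdsWithin] with r hr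
      exact (gfun_pos α β hr).symm
    unfold ContinuousWithinAt
    refine Tendsto.congr' heq ?_
    have hg0 : gfun α β 0 = if α ≤ 0 then ∞ else ENNReal.ofReal (0 - prof α β 1) := by
      unfold gfun; rw [if_pos le_rfl]
    rw [hg0]
    split_ifs with hα
    · refine ENNReal.tendsto_ofReal_nhds_top.2 ?_
      exact tendsto_atTop_add_const_right _ _ (tendsto_prof_zero hα h)
    · push Not at hα
      refine ENNReal.tendsto_ofReal ?_
      refine Tendsto.sub_const ?_ _
      have := (tendsto_pw_zero hα).neg.add (tendsto_pw_zero (hα.trans h))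
      rw [neg_zero, add_zero] at this
      exact this
  · refine ContinuousAt.continuousWithinAt ?_
    have heq : (fun r => ENNReal.ofReal (prof α β r - prof α β 1)) =ᶠ[𝓝 r] gfun α β := by
      filter_upwards [Ioi_mem_nhds h0] with r hr
      exact (gfun_pos α β hr).symm
    refine ContinuousAt.congr ?_ heq
    exact ENNReal.continuous_ofReal.continuousAt.comp
      ((hasDerivAt_prof α β h0).continuousAt.sub continuousAt_const)

variable {d : ℕ}

/-- Shifted potential on Euclidean space. -/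
noncomputable def wfun (α β : ℝ) (x : EuclideanSpace ℝ (Fin d)) : ℝ≥0∞ := gfun α β ‖x‖

lemma continuous_wfun {α β : ℝ} (h : α < β) :
    Continuous (wfun α β : EuclideanSpace ℝ (Fin d) → ℝ≥0∞) :=
  (continuousOn_gfun h).comp_continuous continuous_norm (fun x => norm_nonneg x)

/-- Local integrability of the power functions. -/
lemma integrableOn_pw (hd : 1 ≤ d) {γ : ℝ} (hγ : -(d : ℝ) < γ) {R : ℝ} (hR : 0 < R) :
    IntegrableOn (fun x : EuclideanSpace ℝ (Fin d) => pw γ ‖x‖) (Metric.ball 0 R) := by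
  have : Nonempty (Fin d) := ⟨⟨0, hd⟩⟩
  have : Nontrivial (EuclideanSpace ℝ (Fin d)) := inferInstance
  rw [integrableOn_fun_norm_addHaar]
  rw [finrank_euclideanSpace, Fintype.card_fin]
  simp only [smul_eq_mul]
  by_cases h0 : γ = 0
  · subst h0
    have h1 : IntegrableOn (fun y : ℝ => y ^ (d - 1) * Real.log y) (Ioo 0 R) := by
      have h2 : IntervalIntegrable (fun y : ℝ => y ^ (d - 1) * Real.log y) volume 0 R :=
        (intervalIntegral.intervalIntegrable_log').continuousOn_mul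
          (continuous_pow (d - 1)).continuousOn
      rw [intervalIntegrable_iff_integrableOn_Ioo_of_le hR.le] at h2
      exact h2
    simpa [pw] using h1
  · have h1 : IntegrableOn (fun y : ℝ => y ^ ((d : ℝ) - 1 + γ)) (Ioo 0 R) :=
      (intervalIntegral.integrableOn_Ioo_rpow_iff hR).2 (by linarith)
    have h2 := h1.div_const γ
    refine IntegrableOn.congr_fun h2 ?_ measurableSet_Ioo
    intro y hy
    simp only [pw, h0, if_false]
    rw [Real.rpow_add hy.1]
    have : y ^ ((d : ℝ) - 1) = y ^ (d - 1) := by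
      rw [← Real.rpow_natCast, Nat.cast_sub hd, Nat.cast_one]
    rw [this]
    ring

lemma ae_wfun (hd : 1 ≤ d) (α β : ℝ) :
    ∀ᵐ x : EuclideanSpace ℝ (Fin d), wfun α β x = ENNReal.ofReal (prof α β ‖x‖ - prof α β 1) := by
  have : Nonempty (Fin d) := ⟨⟨0, hd⟩⟩
  have : Nontrivial (EuclideanSpace ℝ (Fin d)) := inferInstance
  have h1 : ∀ᵐ x : EuclideanSpace ℝ (Fin d), x ≠ 0 := by
    have := measure_singleton (μ := (volume : Measure (EuclideanSpace ℝ (Fin d)))) 0
    rw [ae_iff]
    simpa using this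
  filter_upwards [h1] with x hx
  exact gfun_pos α β (norm_pos_iff.2 hx)

lemma lintegral_wfun_lt_top (hd : 1 ≤ d) {α β : ℝ} (hα : -(d : ℝ) < α) (h : α < β) {R : ℝ}
    (hR : 0 < R) :
    ∫⁻ x in Metric.ball (0 : EuclideanSpace ℝ (Fin d)) R, wfun α β x < ∞ := by
  have h1 : IntegrableOn (fun x : EuclideanSpace ℝ (Fin d) => prof α β ‖x‖ - prof α β 1)
      (Metric.ball 0 R) := by
    have ha := integrableOn_pw hd hα hR
    have hb := integrableOn_pw hd (hα.trans h) hR
    have hc : IntegrableOn (fun _ : EuclideanSpace ℝ (Fin d) => prof α β 1) (Metric.ball 0 R) :=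
      integrableOn_const (measure_ball_lt_top.ne)
    exact (ha.neg.add hb).sub hc
  have h2 : ∫⁻ x in Metric.ball (0 : EuclideanSpace ℝ (Fin d)) R, wfun α β x
      = ∫⁻ x in Metric.ball (0 : EuclideanSpace ℝ (Fin d)) R,
        ENNReal.ofReal (prof α β ‖x‖ - prof α β 1) :=
    lintegral_congr_ae (ae_restrict_of_ae (ae_wfun hd α β))
  rw [h2]
  exact h1.lintegral_lt_top

end Pool.Agent.R221.PL
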