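import Pool.Agent.R221.PL.Limit
import Pool.Agent.R221.PL.Compress

open MeasureTheory Filter Topology Set
open scoped ENNReal NNReal

namespace Pool.Agent.R221.PL

section generic

variable {E : Type*} [NormedAddCommGroup E] [MeasurableSpace E] [BorelSpace E]

lemma subseq_of_tight [ProperSpace E] [SecondCountableTopology E]
    {P : ℕ → ProbabilityMeasure E}
    (h : ∀ ε : ℝ≥0∞, 0 < ε → ∃ R : ℝ, ∀ k, (P k : Measure E) {x | R < ‖x‖} ≤ ε)
    (φ : ℕ → ℕ) : ∃ ψ : ℕ → ℕ, StrictMono ψ ∧ ∃ μ : ProbabilityMeasure E,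
      Tendsto (fun n => P (φ (ψ n))) atTop (𝓝 μ) := by
  have ht : IsTightMeasureSet {((μ : ProbabilityMeasure E) : Measure E) | μ ∈ range P} := by
    refine isTightMeasureSet_of_tendsto_measure_norm_gt ?_
    rw [ENNReal.tendsto_atTop_zero]
    intro ε hε
    obtain ⟨R, hR⟩ := h ε hε
    refine ⟨R, fun r hr => ?_⟩
    refine iSup₂_le ?_
    rintro _ ⟨_, ⟨k, rfl⟩, rfl⟩
    exact (measure_mono fun x (hx : r < ‖x‖) => lt_of_le_of_lt hr hx).trans (hR k)
  have hc := isCompact_closure_of_isTightMeasureSet ht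
  obtain ⟨μ, -, ψ, hψ, hlim⟩ := hc.tendsto_subseq (x := fun n => P (φ n))
    (fun n => subset_closure (mem_range_self _))
  exact ⟨ψ, hψ, μ, hlim⟩

lemma exists_V_le [SecondCountableTopology E] {w : E → ℝ≥0∞} (hw : Measurable w)
    {N : ℕ} (hN : N ≠ 0) {X : Fin N → E} (hX : ∀ Y : Fin N → E, D w X ≤ D w Y)
    (ρ : Measure E) [IsProbabilityMeasure ρ] :
    ∃ i, V w X i (X i) ≤ ((N - 1 : ℕ) : ℝ≥0∞) * C w ρ := by
  obtain ⟨Y, hY⟩ := exists_D_le hw N ρ
  have h1 : ∑ i, V w X i (X i) ≤ ∑ i : Fin N, ((N - 1 : ℕ) : ℝ≥0∞) * C w ρ := by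
    rw [← D_eq_sum_V]
    refine (hX Y).trans (hY.trans ?_)
    simp only [Finset.sum_const, Finset.card_univ, Fintype.card_fin, nsmul_eq_mul]
    push_cast
    rw [mul_assoc]
  have : Nonempty (Fin N) := ⟨⟨0, Nat.pos_of_ne_zero hN⟩⟩
  by_contra hcon
  push Not at hcon
  exact absurd h1 (not_le.2 (ENNReal.sum_lt_sum_of_nonempty Finset.univ_nonempty
    fun i _ => hcon i))

lemma emp_far_le {w : E → ℝ≥0∞} {N : ℕ} (X : Fin N → E) (i : Fin N)
    {R : ℝ} (hR0 : 0 ≤ R) {M : ℝ≥0∞} (hR : ∀ x, R < ‖x‖ → M ≤ w x)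
    (hs : ∀ x, w (-x) = w x) :
    M * emp (fun j => X j - X i) {x | R < ‖x‖} ≤ (N : ℝ≥0∞)⁻¹ * V w X i (X i) := by
  have hmeas : MeasurableSet {x : E | R < ‖x‖} :=
    measurableSet_lt measurable_const measurable_norm
  have h1 : emp (fun j => X j - X i) {x | R < ‖x‖}
      = (N : ℝ≥0∞)⁻¹ * ∑ j, indicator {x : E | R < ‖x‖} (fun _ => (1 : ℝ≥0∞)) (X j - X i) := by
    rw [← lintegral_emp, lintegral_indicator hmeas]
    simp
  rw [h1, mul_left_comm]
  gcongr
  rw [Finset.mul_sum]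
  unfold V
  refine Finset.sum_le_sum fun j _ => ?_
  by_cases hx : R < ‖X j - X i‖
  · have hne : i ≠ j := by
      rintro rfl
      simp at hx
      linarith
    rw [if_neg hne, indicator_of_mem (by exact hx), mul_one]
    have := hR _ hx
    rwa [← hs, neg_sub] at this
  · rw [indicator_of_notMem (by exact hx), mul_zero]
    exact zero_le

end generic

section near

variable {E : Type*} [NormedAddCommGroup E]

lemma near_count {w : E → ℝ≥0∞} {N : ℕ} (hN : 1 ≤ N) {X : Fin N → E} {i : Fin N}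
    {K c R : ℝ} (hc : 0 < c) (hcK : c ≤ K)
    (hR : ∀ x, R < ‖x‖ → ENNReal.ofReal (K - c / 2) ≤ w x)
    (hV : V w X i (X i) ≤ ENNReal.ofReal (((N : ℝ) - 1) * (K - c))) :
    ((N : ℝ) - 1) * (c / (2 * K)) ≤
      ((Finset.univ.filter fun j => j ≠ i ∧ ‖X j - X i‖ ≤ R).card : ℝ) := by
  classical
  set S := Finset.univ.filter fun j => j ≠ i ∧ ‖X j - X i‖ ≤ R with hS
  set S' := Finset.univ.filter fun j => j ≠ i ∧ ¬ ‖X j - X i‖ ≤ R with hS'
  have hcard : S.card + S'.card = N - 1 := by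
    have h1 : S = (Finset.univ.erase i).filter fun j => ‖X j - X i‖ ≤ R := by
      ext j; simp [hS]
    have h2 : S' = (Finset.univ.erase i).filter fun j => ¬ ‖X j - X i‖ ≤ R := by
      ext j; simp [hS']
    rw [h1, h2, Finset.card_filter_add_card_filter_not, Finset.card_erase_of_mem (Finset.mem_univ i),
      Finset.card_univ, Fintype.card_fin]
  have hcardR : (S.card : ℝ) + S'.card = N - 1 := by
    have : ((S.card + S'.card : ℕ) : ℝ) = ((N - 1 : ℕ) : ℝ) := by rw [hcard]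
    rw [Nat.cast_sub hN] at this
    push_cast at this
    linarith
  have hlow : (S'.card : ℝ≥0∞) * ENNReal.ofReal (K - c / 2) ≤ V w X i (X i) := by
    unfold V
    calc (S'.card : ℝ≥0∞) * ENNReal.ofReal (K - c / 2)
        = ∑ j ∈ S', ENNReal.ofReal (K - c / 2) := by
          rw [Finset.sum_const, nsmul_eq_mul]
      _ ≤ ∑ j ∈ S', if i = j then 0 else w (X i - X j) := by
          refine Finset.sum_le_sum fun j hj => ?_
          rw [hS', Finset.mem_filter] at hj
          rw [if_neg (fun h => hj.2.1 h.symm)]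
          refine hR _ ?_
          rw [norm_sub_rev]
          exact not_le.1 hj.2.2
      _ ≤ _ := Finset.sum_le_sum_of_subset_of_nonneg (Finset.subset_univ _)
          (fun _ _ _ => zero_le)
  have h3 : ENNReal.ofReal (S'.card * (K - c / 2)) ≤ ENNReal.ofReal (((N : ℝ) - 1) * (K - c)) := by
    rw [ENNReal.ofReal_mul (by positivity), ENNReal.ofReal_natCast]
    exact hlow.trans hV
  have hN1 : (0 : ℝ) ≤ (N : ℝ) - 1 := by
    have : (1 : ℝ) ≤ N := by exact_mod_cast hN
    linarith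
  have h4 : (S'.card : ℝ) * (K - c / 2) ≤ ((N : ℝ) - 1) * (K - c) :=
    (ENNReal.ofReal_le_ofReal_iff (mul_nonneg hN1 (by linarith))).1 h3
  have hK : 0 < K := by linarith
  have h5 : (S'.card : ℝ) = N - 1 - S.card := by linarith
  rw [h5] at h4
  have hSc : (0 : ℝ) ≤ S.card := by positivity
  rw [mul_div_assoc', div_le_iff₀ (by positivity)]
  nlinarith

end near

end Pool.Agent.R221.PL
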